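import Mathlib
import Pool.Agent.N969.P15.Defs2
import Pool.Agent.N974.MF.SymbDefs

/-!
# Twists of `X_0(15)`: statements for the discriminants `D = -n` divisible by `3` or `5`

Together with `Pool.Agent.N969.P15.Defs` and `Defs2` this covers all negative fundamental
discriminants `D = -n` such that `3` is not inert and `5` is not split in `ℚ(√D)`.
-/

set_option autoImplicit false

namespace Pool.Agent.N973.P15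

open Finset
open Pool.Agent.Z700 (hh fac)
open Pool.Agent.N969.P15

noncomputable section

/-! ### the classes -/

/-- `3 ∣ n`, `5` inert, odd discriminants -/
def Cl3 (n : ℕ) : Prop := Squarefree n ∧ n % 4 = 3 ∧ 3 ∣ n ∧ (n % 5 = 2 ∨ n % 5 = 3)

/-- `3 ∣ n`, `5` inert, even discriminants -/
def Cl3e (n : ℕ) : Prop := Ev n ∧ 3 ∣ n ∧ (n % 5 = 2 ∨ n % 5 = 3)

/-- `15 ∣ n`, odd discriminants -/
def Cl15 (n : ℕ) : Prop := Squarefree n ∧ n % 4 = 3 ∧ 3 ∣ n ∧ 5 ∣ n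

/-- `15 ∣ n`, even discriminants -/
def Cl15e (n : ℕ) : Prop := Ev n ∧ 3 ∣ n ∧ 5 ∣ n

/-- `5 ∣ n`, `3` split, odd discriminants -/
def Cl5 (n : ℕ) : Prop := Squarefree n ∧ n % 4 = 3 ∧ n % 3 = 2 ∧ 5 ∣ n

/-- `5 ∣ n`, `3` split, even discriminants -/
def Cl5e (n : ℕ) : Prop := Ev n ∧ n % 3 = 2 ∧ 5 ∣ n

/-! ### the forms -/

/-- the forms `A x² + B x y + C y²` of discriminant `4` joining the cusp classes of `0` and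
`1 / 5` -/
def FmA (q : ℤ × ℤ × ℤ) : Prop := q.2.1 ^ 2 - 4 * q.1 * q.2.2 = 4 ∧ (5 : ℤ) ∣ q.1 ∧
  ¬ (3 : ℤ) ∣ q.1 ∧ (q.2.1 % 10 = 2 ∨ q.2.1 % 10 = 8)

/-- the weight of a form: a sign for the orientation times `-1` for the imprimitive forms -/
def cA (q : ℤ × ℤ × ℤ) : ℤ := (if q.2.1 % 10 = 2 then 1 else -1) *
  (if (2 : ℤ) ∣ q.1 ∧ (2 : ℤ) ∣ q.2.2 then -1 else 1)

open Classical in
/-- the number of forms changing sign between `∞` and `x / M` -/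
def FA (x M : ℤ) : ℤ := ∑ᶠ q : ℤ × ℤ × ℤ,
  if FmA q ∧ 0 < q.1 ∧ q.1 * x ^ 2 + q.2.1 * x * M + q.2.2 * M ^ 2 < 0 then cA q else 0

/-- SYMA: the symbol on the cusps with denominator divisible by `3` -/
def S_SYMA : Prop := ∀ (s : ℚ → ℤ) (a : ℕ → ℤ), Pool.Agent.N974.MF.Symb15 s a →
  ∀ x M : ℤ, M ≠ 0 → 3 ∣ M → IsCoprime x M → s ((x : ℚ) / M) = -s (1 / 3) * FA x M

/-! ### the divisor sums -/

/-- the divisor sum of the indefinite side -/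
def WWA (n S T : ℕ) : ℤ :=
  ∑ a ∈ S.divisors.filter (fun a => ¬ 3 ∣ a), ∑ a' ∈ T.divisors.filter (fun a' => 5 ∣ a' ∧ ¬ 3 ∣ a'),
    ∏ p ∈ n.primeFactors, psp p a a' (S / a) (T / a')

/-- the divisor sum of the indefinite side, even discriminants -/
def WWAe (n S T : ℕ) : ℤ :=
  ∑ a ∈ S.divisors.filter (fun a => ¬ 3 ∣ a), ∑ a' ∈ T.divisors.filter (fun a' => 5 ∣ a' ∧ ¬ 3 ∣ a'),
    psp2 n a a' (S / a) (T / a') * ∏ p ∈ n.primeFactors.erase 2, psp p a a' (S / a) (T / a')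

/-- the sum over the cusps for `a Y + a' X = N` and a function on the integers -/
def WXA (χ : ℤ → ℤ) (n N : ℕ) : ℤ := ∑ T ∈ (range N).filter (fun T => 5 ∣ T),
  ∑ a ∈ (N - T).divisors.filter (fun a => ¬ 3 ∣ a),
    ∑ a' ∈ T.divisors.filter (fun a' => 5 ∣ a' ∧ ¬ 3 ∣ a'),
      ∑ u ∈ (un n).filter (fun u : ℕ => (n : ℤ) ∣ (a : ℤ) * (u : ℤ) + ((T / a' : ℕ) : ℤ) ∧
        (n : ℤ) ∣ (a' : ℤ) * (u : ℤ) - (((N - T) / a : ℕ) : ℤ)), χ u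

/-- C1AA: the forms and the cusps as factorizations (all odd functions) -/
def S_C1AA : Prop := ∀ n : ℕ, 1 < n → ∀ χ : ℤ → ℤ, (∀ u : ℤ, χ (n - u) = -χ u) →
  ∑ u ∈ un n, χ u * FA u n = 2 * (WXA χ n (2 * n) - 3 * WXA χ n n)

/-! ### local densities -/

/-- the local densities for `5 ∣ n1` (twice the value) -/
def loc5 (n1 D : ℕ) : ℤ :=
  if 5 ∣ D then (1 - hh n1 D 5) * (tw n1 D * ∏ l ∈ (D.primeFactors.erase 2).erase 5, fac n1 D l)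
  else 0

/-- the local densities for `5 ∣ n1` and two even norms (twice the value) -/
def loc5E (n1 : ℕ) (b : ℤ) (D : ℕ) : ℤ :=
  if 5 ∣ D then (1 - hh n1 D 5) * (tb b * ∏ l ∈ (D.primeFactors.erase 2).erase 5, fac n1 D l)
  else 0

/-- the same without the factor at `3` -/
def lc5 (n1 D : ℕ) : ℤ :=
  if 5 ∣ D then (1 - hh n1 D 5) *
    (tw n1 D * ∏ l ∈ ((D.primeFactors.erase 2).erase 3).erase 5, fac n1 D l)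
  else 0

/-- the same without the factor at `3`, even norms -/
def lc5E (n1 : ℕ) (b : ℤ) (D : ℕ) : ℤ :=
  if 5 ∣ D then (1 - hh n1 D 5) *
    (tb b * ∏ l ∈ ((D.primeFactors.erase 2).erase 3).erase 5, fac n1 D l)
  else 0

/-- PC5: the number of pairs of vectors with given Gram matrix, `5 ∣ n1` -/
def S_PC5 : Prop := ∀ (n1 n2 : ℕ) (b : ℤ) (D : ℕ), Squarefree n1 → n1 % 4 = 3 → 5 ∣ n1 →
  0 < D → (D : ℤ) = n1 * n2 - b ^ 2 → (cp n1 b n2 : ℤ) = 3 * loc5 n1 D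

/-- PC5E: the number of pairs of vectors of even norms with given Gram matrix, `5 ∣ n1` -/
def S_PC5E : Prop := ∀ (n1 n2 : ℕ) (b : ℤ) (D : ℕ), Ev n1 → 5 ∣ n1 → 4 ∣ n2 →
  0 < D → (D : ℤ) = n1 * n2 - b ^ 2 → (cp n1 b n2 : ℤ) = 3 * loc5E n1 b D

/-- REL5: the pairs with a common isotropic line modulo `3`, `5 ∣ n1`, with given sign at `3` -/
def S_REL5 : Prop := ∀ n1 n2 : ℕ, n1 % 3 = 2 → n2 % 3 = 2 → 5 ∣ n1 → 5 ∣ n2 →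
  ∀ r3 : ℤ, (r3 = 1 ∨ r3 = 2) → ∀ B : ℤ, (n1 : ℤ) * n2 < B ^ 2 → 0 < B →
  6 * ∑ b ∈ (Ioo (-B) B).filter (fun b : ℤ => b % 3 = r3),
    ((cp n1 b n2 : ℤ) + cp3 n1 b n2) = 3 * rr n1 * rr n2 + cc n1 * cc n2

/-- CP35: evaluation of the counts, `5 ∣ n1` -/
def S_CP35 : Prop := ∀ (n1 n2 : ℕ) (b : ℤ) (D : ℕ), Squarefree n1 → n1 % 4 = 3 → n1 % 3 = 2 →
  n2 % 3 = 2 → 5 ∣ n1 → ¬ (3 : ℤ) ∣ b → 0 < D → (D : ℤ) = n1 * n2 - b ^ 2 →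
  (cp n1 b n2 : ℤ) - cp3 n1 b n2 = 6 * lc5 n1 D

/-- CP35E: the same for even norms -/
def S_CP35E : Prop := ∀ (n1 n2 : ℕ) (b : ℤ) (D : ℕ), Ev n1 → n1 % 3 = 2 → 4 ∣ n2 →
  n2 % 3 = 2 → 5 ∣ n1 → ¬ (3 : ℤ) ∣ b → 0 < D → (D : ℤ) = n1 * n2 - b ^ 2 →
  (cp n1 b n2 : ℤ) - cp3 n1 b n2 = 6 * lc5E n1 b D

/-! ### evaluation of the divisor sums -/

/-- C23: `3 ∣ n`, `5` inert, determinant `n` -/
def S_C23A : Prop := ∀ n : ℕ, Cl3 n → ∀ T : ℕ, 0 < T → T < n → 5 ∣ T → ¬ 3 ∣ T →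
  WWA n (n - T) T = - loc n (4 * (n - T) * T)

/-- C23: `3 ∣ n`, `5` inert, determinant `2 n` -/
def S_C23B : Prop := ∀ n : ℕ, Cl3 n → ∀ T : ℕ, 0 < T → T < 2 * n → 5 ∣ T → ¬ 3 ∣ T →
  WWA n (2 * n - T) T = - (loc n (4 * (2 * n - T) * T) +
    if 2 ∣ T then ep2 n * loc n ((2 * n - T) * T) else 0)

/-- C23E: `3 ∣ n`, `5` inert, even discriminants -/
def S_C23E : Prop := ∀ n : ℕ, Cl3e n → ∀ N : ℕ, (N = n ∨ N = 2 * n) →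
  ∀ T : ℕ, 0 < T → T < N → 5 ∣ T → ¬ 3 ∣ T →
  WWAe n (N - T) T = - locE n ((T : ℤ) - ((N - T : ℕ) : ℤ)) (4 * (N - T) * T)

/-- C25: `5 ∣ n`, determinant `n` -/
def S_C25A : Prop := ∀ n : ℕ, (Cl15 n ∨ Cl5 n) → ∀ T : ℕ, 0 < T → T < n → 5 ∣ T →
  (3 ∣ n → ¬ 3 ∣ T) → 2 * WWA n (n - T) T = - lc5 n (4 * (n - T) * T)

/-- C25: `5 ∣ n`, determinant `2 n` -/
def S_C25B : Prop := ∀ n : ℕ, (Cl15 n ∨ Cl5 n) → ∀ T : ℕ, 0 < T → T < 2 * n → 5 ∣ T →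
  (3 ∣ n → ¬ 3 ∣ T) → 2 * WWA n (2 * n - T) T = - (lc5 n (4 * (2 * n - T) * T) +
    if 2 ∣ T then ep2 n * lc5 n ((2 * n - T) * T) else 0)

/-- C25E: `5 ∣ n`, even discriminants -/
def S_C25E : Prop := ∀ n : ℕ, (Cl15e n ∨ Cl5e n) → ∀ N : ℕ, (N = n ∨ N = 2 * n) →
  ∀ T : ℕ, 0 < T → T < N → 5 ∣ T → (3 ∣ n → ¬ 3 ∣ T) →
  2 * WWAe n (N - T) T = - lc5E n ((T : ℤ) - ((N - T : ℕ) : ℤ)) (4 * (N - T) * T)

/-! ### the Hecke relations at `2` -/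

/-- HE3 -/
def S_HE3 : Prop := ∀ n : ℕ, n % 4 = 3 → 3 ∣ n → ¬ 9 ∣ n →
  rr (4 * n) = (3 - ep2 n) * rr n ∧ rr0 (4 * n) = rr n - (1 + ep2 n) * rr0 n

/-- HE3E -/
def S_HE3E : Prop := ∀ m : ℕ, (m % 4 = 1 ∨ m % 4 = 2) → 3 ∣ m → ¬ 9 ∣ m →
  rr (16 * m) = 3 * rr (4 * m) ∧ rr0 (16 * m) = rr (4 * m) - rr0 (4 * m)

/-! ### the parity of the Gross sums -/

/-- R5: the parity of the number of vectors -/
def S_R5 : Prop := ∀ n : ℕ, Squarefree n → n % 4 = 3 → 5 ∣ n →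
  ∃ g : ℤ, rr n = 2 ^ (n.primeFactors.card - 1) * g ∧ (Odd g ↔ Qc n)

/-- R5E -/
def S_R5E : Prop := ∀ n : ℕ, Ev n → 5 ∣ n →
  ∃ g : ℤ, rr n = 2 ^ (n.primeFactors.card - 1) * g ∧ (Odd g ↔ Qe n)

/-- PARA3: `3 ∣ n`, `5` inert -/
def S_PARA3 : Prop := ∀ n : ℕ, Cl3 n → 3 < n →
  ∃ y : ℤ, cc n = 2 ^ n.primeFactors.card * y ∧ (Odd y ↔ Qc n)

/-- PARA3E -/
def S_PARA3E : Prop := ∀ n : ℕ, Cl3e n →
  ∃ y : ℤ, cc n = 2 ^ n.primeFactors.card * y ∧ (Odd y ↔ Qe n)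

/-- PARA5: `5 ∣ n` -/
def S_PARA5 : Prop := ∀ n : ℕ, (Cl15 n ∨ Cl5 n) →
  ∃ y : ℤ, cc n = 2 ^ (n.primeFactors.card - 1) * y ∧ (Odd y ↔ Qc n)

/-- PARA5E -/
def S_PARA5E : Prop := ∀ n : ℕ, (Cl15e n ∨ Cl5e n) →
  ∃ y : ℤ, cc n = 2 ^ (n.primeFactors.card - 1) * y ∧ (Odd y ↔ Qe n)

/-! ### the diagonal identities -/

def S_DIAG3 : Prop := ∀ n : ℕ, Cl3 n →
  18 * ∑ u ∈ un n, jacobiSym u n * FA u n = -cc n ^ 2

def S_DIAG3E : Prop := ∀ n : ℕ, Cl3e n →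
  18 * ∑ u ∈ un n, chE n u * FA u n = -cc n ^ 2

def S_DIAG15 : Prop := ∀ n : ℕ, Cl15 n →
  9 * ∑ u ∈ un n, jacobiSym u n * FA u n = -cc n ^ 2

def S_DIAG15E : Prop := ∀ n : ℕ, Cl15e n →
  9 * ∑ u ∈ un n, chE n u * FA u n = -cc n ^ 2

def S_DIAG5 : Prop := ∀ n : ℕ, Cl5 n →
  9 * ∑ u ∈ un n, jacobiSym u n * FA u n = -(2 * cc n ^ 2)

def S_DIAG5E : Prop := ∀ n : ℕ, Cl5e n →
  9 * ∑ u ∈ un n, chE n u * FA u n = -(2 * cc n ^ 2)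

end

end Pool.Agent.N973.P15
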