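import Pool.Agent.N973.P15.REL22

/-!
# P15: evaluation of `cp + cp3`
-/

set_option autoImplicit false

namespace Pool.Agent.N973.P15

open Finset
open Pool.Agent.N969.P15
open Pool.Agent.Z700 (hh fac)

theorem sq_mod3 {b : ℤ} (hb : ¬ (3 : ℤ) ∣ b) : (3 : ℤ) ∣ b ^ 2 - 1 := by
  have h : b % 3 = 1 ∨ b % 3 = 2 := by omega
  have e : b ^ 2 - 1 = (b - 1) * (b + 1) := by ring
  rw [e]
  rcases h with h | h
  · exact Dvd.dvd.mul_right (by omega) _
  · exact Dvd.dvd.mul_left (by omega) _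

theorem prop3 {b : ℤ} (hb : ¬ (3 : ℤ) ∣ b) (v w : V3) :
    (∀ i, (3 : ℤ) ∣ v i + b * w i) ↔ ∀ i, (3 : ℤ) ∣ w i + b * v i := by
  have hs := sq_mod3 hb
  constructor
  · intro h i
    have e : w i + b * v i = b * (v i + b * w i) - (b ^ 2 - 1) * w i := by ring
    rw [e]
    exact dvd_sub ((h i).mul_left _) (hs.mul_right _)
  · intro h i
    have e : v i + b * w i = b * (w i + b * v i) - (b ^ 2 - 1) * v i := by ring
    rw [e]
    exact dvd_sub ((h i).mul_left _) (hs.mul_right _)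

/-- the translation -/
def T3 (b : ℤ) (w v : V3) : V3 := fun i => 3 * w i - b * v i

/-- the inverse translation -/
def U3 (b : ℤ) (w v : V3) : V3 := fun i => (w i + b * v i) / 3

theorem cp3_eq (n1 b n2 b' n2' : ℤ) (hb : ¬ (3 : ℤ) ∣ b) (hb' : 3 * b' = b + b * n1)
    (hn : 9 * n2' = n2 + 2 * b ^ 2 + b ^ 2 * n1) : cp3 n1 b n2 = cp n1 b' n2' := by
  unfold cp3 cp
  refine Finset.card_nbij' (fun q => (q.1, U3 b q.2 q.1)) (fun q => (q.1, T3 b q.2 q.1)) ?_ ?_ ?_ ?_
  · rintro ⟨v, w⟩ h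
    simp only [Finset.coe_filter, Set.mem_ofPred_eq, Finset.mem_product, mem_vec] at h ⊢
    obtain ⟨⟨h1, h2⟩, h3, h4⟩ := h
    rw [prop3 hb] at h4
    choose u hu using h4
    have hU : U3 b w v = u := by
      funext i
      unfold U3
      rw [hu i]
      exact Int.mul_ediv_cancel_left _ (by norm_num)
    rw [hU]
    have hw : ∀ i, w i = 3 * u i - b * v i := fun i => by linarith [hu i]
    unfold ip at h1 h2 h3 ⊢
    simp only [hw] at h2 h3
    refine ⟨⟨h1, ?_⟩, ?_⟩
    · linarith [congrArg (fun x => b ^ 2 * x) h1, congrArg (fun x => 2 * b * x) h3]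
    · linarith [congrArg (fun x => b * x) h1]
  · rintro ⟨v, w⟩ h
    simp only [Finset.coe_filter, Set.mem_ofPred_eq, Finset.mem_product, mem_vec] at h ⊢
    obtain ⟨⟨h1, h2⟩, h3⟩ := h
    rw [prop3 hb]
    have hT : ∀ i, T3 b w v i = 3 * w i - b * v i := fun i => rfl
    unfold ip at h1 h2 h3 ⊢
    simp only [hT]
    refine ⟨⟨h1, ?_⟩, ?_, ?_⟩
    · linarith [congrArg (fun x => b ^ 2 * x) h1, congrArg (fun x => 6 * b * x) h3,
        congrArg (fun x => b * x) hb']
    · linarith [congrArg (fun x => b * x) h1]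
    · intro i
      exact ⟨w i, by ring⟩
  · rintro ⟨v, w⟩ h
    simp only [Finset.coe_filter, Set.mem_ofPred_eq, Finset.mem_product, mem_vec] at h ⊢
    obtain ⟨⟨h1, h2⟩, h3, h4⟩ := h
    rw [prop3 hb] at h4
    have hTU : T3 b (U3 b w v) v = w := by
      funext i
      show 3 * ((w i + b * v i) / 3) - b * v i = w i
      rw [Int.mul_ediv_cancel' (h4 i)]
      ring
    show (v, T3 b (U3 b w v) v) = (v, w)
    rw [hTU]
  · rintro ⟨v, w⟩ h
    have hUT : U3 b (T3 b w v) v = w := by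
      funext i
      show (3 * w i - b * v i + b * v i) / 3 = w i
      have : 3 * w i - b * v i + b * v i = 3 * w i := by ring
      rw [this]
      exact Int.mul_ediv_cancel_left _ (by norm_num)
    show (v, U3 b (T3 b w v) v) = (v, w)
    rw [hUT]

theorem cp3_zero (n1 b n2 : ℤ) (hb : ¬ (3 : ℤ) ∣ b) (h9 : ¬ (9 : ℤ) ∣ n1 * n2 - b ^ 2) :
    cp3 n1 b n2 = 0 := by
  unfold cp3
  rw [Finset.card_eq_zero, Finset.filter_eq_empty_iff]
  rintro ⟨v, w⟩ h h3
  simp only [Finset.mem_product, mem_vec] at h h3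
  obtain ⟨h1, h2⟩ := h
  obtain ⟨h3, h4⟩ := h3
  rw [prop3 hb] at h4
  choose u hu using h4
  have hw : ∀ i, w i = 3 * u i - b * v i := fun i => by linarith [hu i]
  apply h9
  have e : n1 * n2 - b ^ 2 = ip v v * ip w w - ip v w ^ 2 := by rw [h1, h2, h3]
  rw [e]
  unfold ip
  simp only [hw]
  refine ⟨ip v v * ip u u - ip v u ^ 2, ?_⟩
  unfold ip
  ring

/-! ### the local factors -/

theorem jac_n1 {n1 : ℕ} (h : n1 % 3 = 2) : jacobiSym (-(n1 : ℤ)) 3 = 1 := by
  rw [jacobiSym.mod_left]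
  have e : (-(n1 : ℤ)) % ((3 : ℕ) : ℤ) = 1 := by
    push_cast
    omega
  rw [e]
  exact jacobiSym.one_left 3

theorem fac3 {n1 : ℕ} (h : n1 % 3 = 2) (D : ℕ) : fac n1 D 3 = (D.factorization 3 : ℤ) + 1 := by
  unfold fac
  rw [if_neg (by omega), jac_n1 h]
  simp

theorem fact9 (D' l : ℕ) (hD' : 0 < D') (hl : l.Prime) (h3 : l ≠ 3) :
    (9 * D').factorization l = D'.factorization l := by
  rw [Nat.factorization_mul (by norm_num) hD'.ne']
  have h9 : (9 : ℕ).factorization l = 0 := by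
    apply Nat.factorization_eq_zero_of_not_dvd
    intro h
    have h1 : l ∣ 3 ^ 2 := by norm_num; exact h
    have h2 := hl.dvd_of_dvd_pow h1
    rw [Nat.prime_dvd_prime_iff_eq hl (by norm_num)] at h2
    exact h3 h2
  simp [h9]

theorem fact9_3 (D' : ℕ) (hD' : 0 < D') :
    (9 * D').factorization 3 = 2 + D'.factorization 3 := by
  rw [Nat.factorization_mul (by norm_num) hD'.ne']
  have h9 : (9 : ℕ).factorization 3 = 2 := by
    have : (9 : ℕ) = 3 ^ 2 := by norm_num
    rw [this, Nat.Prime.factorization_pow (by norm_num)]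
    simp
  simp [h9]

theorem jac9 (x : ℤ) (l : ℕ) (hl : l.Prime) (h3 : l ≠ 3) :
    jacobiSym (9 * x) l = jacobiSym x l := by
  rw [jacobiSym.mul_left]
  have h1 : jacobiSym (9 : ℤ) l = 1 := by
    have : (9 : ℤ) = 3 ^ 2 := by norm_num
    rw [this]
    apply jacobiSym.sq_one'
    rw [Int.gcd_comm]
    have h2 : Nat.Coprime l 3 := (Nat.coprime_primes hl (by norm_num)).2 h3
    exact_mod_cast h2
  rw [h1, one_mul]

theorem fac9 (n1 D' l : ℕ) (hD' : 0 < D') (hl : l.Prime) (h3 : l ≠ 3) :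
    fac n1 (9 * D') l = fac n1 D' l := by
  unfold fac hh
  rw [fact9 D' l hD' hl h3]
  have h1 : 9 * D' / l ^ D'.factorization l = 9 * (D' / l ^ D'.factorization l) :=
    Nat.mul_div_assoc _ (Nat.ordProj_dvd D' l)
  rw [h1]
  have h2 : (-((9 * (D' / l ^ D'.factorization l) : ℕ) : ℤ)) =
      9 * (-((D' / l ^ D'.factorization l : ℕ) : ℤ)) := by
    push_cast
    ring
  have h4 : (-((n1 / l * (9 * (D' / l ^ D'.factorization l)) : ℕ) : ℤ)) =
      9 * (-((n1 / l * (D' / l ^ D'.factorization l) : ℕ) : ℤ)) := by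
    push_cast
    ring
  rw [h2, h4, jac9 _ l hl h3, jac9 _ l hl h3]

theorem pf9 (D' : ℕ) (hD' : 0 < D') :
    (((9 * D').primeFactors.erase 2).erase 3).erase 5 =
      ((D'.primeFactors.erase 2).erase 3).erase 5 := by
  rw [Nat.primeFactors_mul (by norm_num) hD'.ne']
  have h9 : (9 : ℕ).primeFactors = {3} := by
    have : (9 : ℕ) = 3 ^ 2 := by norm_num
    rw [this]
    exact Nat.primeFactors_prime_pow (by norm_num) (by norm_num)
  rw [h9]
  ext x
  simp only [Finset.mem_erase, Finset.mem_union, Finset.mem_singleton]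
  tauto

theorem lrest9 (n1 D' : ℕ) (hD' : 0 < D') : lrest n1 (9 * D') = lrest n1 D' := by
  unfold lrest tw
  rw [fact9 D' 5 hD' (by norm_num) (by norm_num), fact9 D' 2 hD' (by norm_num) (by norm_num),
    pf9 D' hD']
  split_ifs
  · congr 1
    refine Finset.prod_congr rfl fun l hl => ?_
    have h1 := Finset.mem_erase.1 (Finset.mem_erase.1 hl).2
    exact fac9 n1 D' l hD' (Nat.prime_of_mem_primeFactors (Finset.mem_erase.1 h1.2).2) h1.1
  · congr 1
    refine Finset.prod_congr rfl fun l hl => ?_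
    have h1 := Finset.mem_erase.1 (Finset.mem_erase.1 hl).2
    exact fac9 n1 D' l hD' (Nat.prime_of_mem_primeFactors (Finset.mem_erase.1 h1.2).2) h1.1
  · rfl

/-- the factor at `3` -/
theorem loc_eq {n1 : ℕ} (h : n1 % 3 = 2) (D : ℕ) (hD : 0 < D) :
    loc n1 D = ((D.factorization 3 : ℤ) + 1) * lrest n1 D := by
  unfold loc lrest
  split_ifs with h5
  · have h1 : ∏ l ∈ (D.primeFactors.erase 2).erase 5, fac n1 D l =
        ((D.factorization 3 : ℤ) + 1) * ∏ l ∈ ((D.primeFactors.erase 2).erase 3).erase 5,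
          fac n1 D l := by
      rw [Finset.erase_right_comm (a := 3) (b := 5)]
      by_cases h3 : 3 ∈ (D.primeFactors.erase 2).erase 5
      · rw [← Finset.mul_prod_erase _ _ h3, fac3 h]
      · rw [Finset.erase_eq_of_notMem h3]
        have h2 : D.factorization 3 = 0 := by
          apply Nat.factorization_eq_zero_of_not_dvd
          intro h4
          apply h3
          rw [Finset.mem_erase, Finset.mem_erase, Nat.mem_primeFactors]
          exact ⟨by norm_num, by norm_num, by norm_num, h4, hD.ne'⟩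
        rw [h2]
        simp
    rw [h1]
    ring
  · rw [mul_zero]

/-- **CP3** -/
theorem t_CP3 (hPC : S_PC) : S_CP3 := by
  intro n1 n2 b D hs h4 h1 h2 h5 hb hD hDD
  have hcp := hPC n1 n2 b D hs h4 h5 hD hDD
  rw [hcp, loc_eq h1 D hD]
  unfold loc3
  have hb3 := sq_mod3 hb
  have h3D : 3 ∣ D := by
    have : (3 : ℤ) ∣ (D : ℤ) := by
      rw [hDD]
      have e : (n1 : ℤ) * n2 - b ^ 2 = ((n1 : ℤ) * n2 - 1) - (b ^ 2 - 1) := by ring
      rw [e]
      refine dvd_sub ?_ hb3
      obtain ⟨c, hc⟩ : ∃ c : ℤ, (n1 : ℤ) = 3 * c + 2 := ⟨n1 / 3, by omega⟩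
      obtain ⟨d, hd⟩ : ∃ d : ℤ, (n2 : ℤ) = 3 * d + 2 := ⟨n2 / 3, by omega⟩
      rw [hc, hd]
      exact ⟨3 * c * d + 2 * c + 2 * d + 1, by ring⟩
    exact_mod_cast this
  by_cases h9 : 9 ∣ D
  · obtain ⟨D', rfl⟩ := h9
    have hD' : 0 < D' := by omega
    have h3n : (3 : ℤ) ∣ b + b * n1 := by
      have e : b + b * (n1 : ℤ) = b * (1 + n1) := by ring
      rw [e]
      exact Dvd.dvd.mul_left (by omega) _
    obtain ⟨b', hb'⟩ := h3n
    have h9n : (9 : ℤ) ∣ n2 + 2 * b ^ 2 + b ^ 2 * n1 := by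
      have hc : IsCoprime (9 : ℤ) n1 := by
        have : IsCoprime (3 : ℤ) n1 := by
          rw [Prime.coprime_iff_not_dvd Int.prime_three]
          omega
        have h := IsCoprime.mul_left this this
        norm_num at h
        exact h
      refine hc.dvd_of_dvd_mul_left ?_
      have e : (n1 : ℤ) * (n2 + 2 * b ^ 2 + b ^ 2 * n1) = 9 * (D' : ℤ) + (b + b * n1) ^ 2 := by
        push_cast at hDD
        rw [hDD]
        ring
      rw [e, hb']
      exact ⟨D' + b' ^ 2, by ring⟩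
    obtain ⟨n2', hn2'⟩ := h9n
    have hn0 : 0 ≤ n2' := by
      have : 0 ≤ 9 * n2' := by
        rw [← hn2']
        positivity
      omega
    obtain ⟨N2, rfl⟩ := Int.eq_ofNat_of_zero_le hn0
    have hc3 := cp3_eq n1 b n2 b' N2 hb hb'.symm hn2'.symm
    rw [hc3]
    have hDD' : (D' : ℤ) = n1 * N2 - b' ^ 2 := by
      have : 9 * (D' : ℤ) = 9 * (n1 * N2 - b' ^ 2) := by
        have e1 : (9 : ℤ) * (n1 * N2 - b' ^ 2) = n1 * (9 * N2) - (3 * b') ^ 2 := by ring
        push_cast at hDD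
        rw [e1, ← hb', ← hn2', hDD]
        ring
      linarith
    rw [hPC n1 N2 b' D' hs h4 h5 hD' hDD', loc_eq h1 D' hD', lrest9 n1 D' hD', fact9_3 D' hD']
    push_cast
    ring
  · have hz : cp3 n1 b n2 = 0 := by
      refine cp3_zero n1 b n2 hb ?_
      rw [← hDD]
      intro h
      exact h9 (by exact_mod_cast h)
    have hk : D.factorization 3 = 1 := by
      have k1 : 1 ≤ D.factorization 3 :=
        (Nat.Prime.dvd_iff_one_le_factorization (by norm_num) hD.ne').1 h3D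
      have k2 : ¬ 2 ≤ D.factorization 3 := by
        intro h
        have := (Nat.Prime.pow_dvd_iff_le_factorization (p := 3) (by norm_num) hD.ne').2 h
        norm_num at this
        exact h9 this
      omega
    rw [hz, hk]
    push_cast
    ring

end Pool.Agent.N973.P15
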