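import Pool.Agent.N969.P15.Defs

/-!
# P15: the pairs with a common isotropic line modulo `3`
-/

set_option autoImplicit false
set_option linter.unusedSimpArgs false
set_option linter.unusedTactic false
set_option linter.unreachableTactic false

namespace Pool.Agent.N973.P15

open Finset
open Pool.Agent.N969.P15

/-! ### the norm form -/

theorem ip_self (v : V3) : ip v v = 3 * v 0 ^ 2 + 7 * v 1 ^ 2 + 7 * v 2 ^ 2 - 2 * (v 0 * v 1) -
    2 * (v 0 * v 2) - 6 * (v 1 * v 2) := by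
  unfold ip
  ring

theorem le0 (v : V3) : v 0 ^ 2 ≤ ip v v := by
  rw [ip_self]
  nlinarith [sq_nonneg (2 * v 0 - v 1 - v 2), sq_nonneg (v 1 - v 2), sq_nonneg (v 1), sq_nonneg (v 2)]

theorem le1 (v : V3) : v 1 ^ 2 ≤ ip v v := by
  rw [ip_self]
  nlinarith [sq_nonneg (3 * v 0 - v 1 - v 2), sq_nonneg (v 1 - v 2), sq_nonneg (v 1), sq_nonneg (v 2)]

theorem le2 (v : V3) : v 2 ^ 2 ≤ ip v v := by
  rw [ip_self]
  nlinarith [sq_nonneg (3 * v 0 - v 1 - v 2), sq_nonneg (v 1 - v 2), sq_nonneg (v 1), sq_nonneg (v 2)]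

theorem mem_vec (n : ℤ) (v : V3) : v ∈ vec n ↔ ip v v = n := by
  unfold vec
  rw [Finset.mem_filter]
  constructor
  · exact fun h => h.2
  · intro h
    refine ⟨?_, h⟩
    rw [Fintype.mem_piFinset]
    intro i
    rw [Finset.mem_Icc]
    have key : v i ^ 2 ≤ n := by
      rw [← h]
      fin_cases i
      · exact le0 v
      · exact le1 v
      · exact le2 v
    have k2 : v i ≤ v i ^ 2 := by
      rcases le_or_gt (v i) 0 with h | h
      · nlinarith [sq_nonneg (v i)]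
      · nlinarith
    have k3 : -v i ≤ v i ^ 2 := by
      rcases le_or_gt 0 (v i) with h | h
      · nlinarith [sq_nonneg (v i)]
      · nlinarith
    constructor <;> linarith

theorem cauchy (v w : V3) : ip v w ^ 2 ≤ ip v v * ip w w := by
  have h : ip v v * ip w w - ip v w ^ 2 =
      10 * ((v 1 * w 2 - v 2 * w 1 + (v 2 * w 0 - v 0 * w 2)) ^ 2 +
        (v 1 * w 2 - v 2 * w 1 + (v 0 * w 1 - v 1 * w 0)) ^ 2 +
        ((v 2 * w 0 - v 0 * w 2) + (v 0 * w 1 - v 1 * w 0)) ^ 2 +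
        2 * (v 1 * w 2 - v 2 * w 1) ^ 2) := by
    unfold ip
    ring
  nlinarith [sq_nonneg (v 1 * w 2 - v 2 * w 1 + (v 2 * w 0 - v 0 * w 2)),
    sq_nonneg (v 1 * w 2 - v 2 * w 1 + (v 0 * w 1 - v 1 * w 0)),
    sq_nonneg ((v 2 * w 0 - v 0 * w 2) + (v 0 * w 1 - v 1 * w 0)),
    sq_nonneg (v 1 * w 2 - v 2 * w 1)]

/-! ### the lines modulo `3`, the sign at `5` and the rotations -/

/-- the linear forms of the four isotropic lines modulo `3` -/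
def lam (i : Fin 4) (v : V3) : ℤ :=
  match i with
  | 0 => v 1 + v 2
  | 1 => v 0 + v 1 - v 2
  | 2 => v 0 - v 1 + v 2
  | 3 => v 0 - v 1 - v 2

/-- the signs at `3` -/
def mu (i : Fin 4) (v : V3) : ℤ :=
  match i with
  | 0 => v 1
  | 1 => v 2
  | 2 => v 1
  | 3 => v 1 - v 2

/-- the sign at `5` -/
def uu (v : V3) : ℤ := v 1 + v 2 - 3 * v 0

/-- the rotation of order three -/
def g3 (v : V3) : V3 := ![v 0 - v 1, v 2 - v 1, -v 1]

/-- the rotations of order two -/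
def s2 (i : Fin 4) (v : V3) : V3 :=
  match i with
  | 0 => ![-v 0, -v 2, -v 1]
  | 1 => ![v 2 - v 0, v 2 - v 1, v 2]
  | 2 => ![v 1 - v 0, v 1, v 1 - v 2]
  | 3 => ![-v 0, -v 2, -v 1]

theorem ip_g3 (v w : V3) : ip (g3 v) (g3 w) = ip v w := by
  simp only [ip, g3, Matrix.cons_val_zero, Matrix.cons_val_one, Matrix.cons_val]
  ring

theorem ip_s2 (i : Fin 4) (v w : V3) : ip (s2 i v) (s2 i w) = ip v w := by
  fin_cases i <;>
  · simp only [ip, s2, Matrix.cons_val_zero, Matrix.cons_val_one, Matrix.cons_val, Fin.zero_eta,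
      Fin.mk_one, Fin.reduceFinMk]
    ring

theorem ip_neg (v w : V3) : ip (-v) (-w) = ip v w := by
  simp only [ip, Pi.neg_apply]
  ring

theorem ext3 {v w : V3} (h0 : v 0 = w 0) (h1 : v 1 = w 1) (h2 : v 2 = w 2) : v = w := by
  funext i
  fin_cases i
  · exact h0
  · exact h1
  · exact h2

theorem g3_g3 (v : V3) : g3 (g3 (g3 v)) = v := by
  refine ext3 ?_ ?_ ?_ <;>
  · simp only [g3, Matrix.cons_val_zero, Matrix.cons_val_one, Matrix.cons_val]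
    ring

theorem s2_s2 (i : Fin 4) (v : V3) : s2 i (s2 i v) = v := by
  fin_cases i <;>
  · refine ext3 ?_ ?_ ?_ <;>
    · simp only [s2, Matrix.cons_val_zero, Matrix.cons_val_one, Matrix.cons_val, Fin.zero_eta,
        Fin.mk_one, Fin.reduceFinMk]
      try ring

theorem lam_neg (i : Fin 4) (v : V3) : lam i (-v) = -lam i v := by
  fin_cases i <;>
  · simp only [lam, Pi.neg_apply, Fin.zero_eta, Fin.mk_one, Fin.reduceFinMk]
    ring

theorem mu_neg (i : Fin 4) (v : V3) : mu i (-v) = -mu i v := by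
  fin_cases i <;>
  · simp only [mu, Pi.neg_apply, Fin.zero_eta, Fin.mk_one, Fin.reduceFinMk]
    try ring

theorem uu_neg (v : V3) : uu (-v) = -uu v := by
  simp only [uu, Pi.neg_apply]
  ring

theorem lam_s2 (i : Fin 4) (v : V3) : lam i (s2 i v) = -lam i v := by
  fin_cases i <;>
  · simp only [lam, s2, Matrix.cons_val_zero, Matrix.cons_val_one, Matrix.cons_val, Fin.zero_eta,
      Fin.mk_one, Fin.reduceFinMk]
    ring

theorem uu_s2 (i : Fin 4) (v : V3) : uu (s2 i v) = -uu v := by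
  fin_cases i <;>
  · simp only [uu, s2, Matrix.cons_val_zero, Matrix.cons_val_one, Matrix.cons_val, Fin.zero_eta,
      Fin.mk_one, Fin.reduceFinMk]
    ring

theorem mu_s2 (i : Fin 4) (v : V3) (h : (3 : ℤ) ∣ lam i v) : (3 : ℤ) ∣ mu i (s2 i v) - mu i v := by
  fin_cases i <;>
  · simp only [mu, lam, s2, Matrix.cons_val_zero, Matrix.cons_val_one, Matrix.cons_val, Fin.zero_eta,
      Fin.mk_one, Fin.reduceFinMk] at h ⊢
    omega

theorem lam_g3 (v : V3) : lam 1 (g3 v) = lam 2 v ∧ lam 2 (g3 v) = lam 3 v ∧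
    lam 3 (g3 v) = lam 1 v := by
  refine ⟨?_, ?_, ?_⟩ <;>
  · simp only [lam, g3, Matrix.cons_val_zero, Matrix.cons_val_one, Matrix.cons_val]
    ring

/-! ### finite verifications -/

/-- the norm form over a ring -/
def qz {R : Type} [CommRing R] (a b c : R) : R :=
  3 * (a * a) + 7 * (b * b) + 7 * (c * c) - (a * b + b * a) - (a * c + c * a) - 3 * (b * c + c * b)

/-- the inner product over a ring -/
def bz {R : Type} [CommRing R] (a b c x y z : R) : R :=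
  3 * (a * x) + 7 * (b * y) + 7 * (c * z) - (a * y + b * x) - (a * z + c * x) - 3 * (b * z + c * y)

/-- the linear forms over a ring -/
def lz {R : Type} [CommRing R] (i : Fin 4) (a b c : R) : R :=
  match i with
  | 0 => b + c
  | 1 => a + b - c
  | 2 => a - b + c
  | 3 => a - b - c

/-- the signs over a ring -/
def mz {R : Type} [CommRing R] (i : Fin 4) (a b c : R) : R :=
  match i with
  | 0 => b
  | 1 => c
  | 2 => b
  | 3 => b - c

theorem fin1 : ∀ a b c : ZMod 3, bz a b c a b c = 2 →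
    (∑ i : Fin 4, if lz i a b c = 0 then 1 else 0) = 2 := by
  decide +kernel

theorem fin2 : ∀ a b c : ZMod 3, bz a b c a b c = 2 → ∀ x y z : ZMod 3, bz x y z x y z = 2 →
    ∀ r : ZMod 3, r ≠ 0 →
    ((if bz a b c x y z = r then 1 else 0) +
      (if bz a b c x y z = r ∧ a + r * x = 0 ∧ b + r * y = 0 ∧ c + r * z = 0 then 1 else 0)) =
    (∑ i : Fin 4, if lz i a b c = 0 ∧ lz i x y z = 0 ∧ 2 * (mz i a b c * mz i x y z) = r then 1
      else 0) := by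
  decide +kernel

theorem fin3 : ∀ a b c : ZMod 3, bz a b c a b c = 2 → ∀ i : Fin 4, lz i a b c = 0 →
    mz i a b c ≠ 0 := by
  decide +kernel

theorem cast3 (x : ℤ) : (3 : ℤ) ∣ x ↔ (x : ZMod 3) = 0 :=
  (ZMod.intCast_zmod_eq_zero_iff_dvd x 3).symm

theorem ip_cast (v w : V3) : ((ip v w : ℤ) : ZMod 3) =
    bz (v 0 : ZMod 3) (v 1) (v 2) (w 0) (w 1) (w 2) := by
  unfold ip bz
  push_cast
  ring

theorem lam_cast (i : Fin 4) (v : V3) : ((lam i v : ℤ) : ZMod 3) =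
    lz i (v 0 : ZMod 3) (v 1) (v 2) := by
  fin_cases i <;>
  · simp only [lam, lz, Fin.zero_eta, Fin.mk_one, Fin.reduceFinMk]
    push_cast
    ring

theorem mu_cast (i : Fin 4) (v : V3) : ((mu i v : ℤ) : ZMod 3) =
    mz i (v 0 : ZMod 3) (v 1) (v 2) := by
  fin_cases i <;>
  · simp only [mu, mz, Fin.zero_eta, Fin.mk_one, Fin.reduceFinMk]
    try push_cast
    try ring

theorem three_zero : (3 : ZMod 3) = 0 := by decide

theorem norm_cast3 {n : ℕ} (h : n % 3 = 2) {v : V3} (hv : v ∈ vec n) :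
    bz (v 0 : ZMod 3) (v 1) (v 2) (v 0) (v 1) (v 2) = 2 := by
  rw [mem_vec] at hv
  rw [← ip_cast, hv]
  push_cast
  have h1 : ((n : ℕ) : ZMod 3) = ((n % 3 : ℕ) : ZMod 3) := (ZMod.natCast_mod n 3).symm
  rw [h1, h]
  rfl

/-- each vector lies on two lines -/
theorem two_lines {n : ℕ} (h : n % 3 = 2) {v : V3} (hv : v ∈ vec n) :
    (∑ i : Fin 4, if (3 : ℤ) ∣ lam i v then (1 : ℤ) else 0) = 2 := by
  have h1 := fin1 _ _ _ (norm_cast3 h hv)
  have h2 : (∑ i : Fin 4, if (3 : ℤ) ∣ lam i v then (1 : ℤ) else 0) =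
      ((∑ i : Fin 4, if lz i (v 0 : ZMod 3) (v 1) (v 2) = 0 then 1 else 0 : ℕ) : ℤ) := by
    rw [Nat.cast_sum]
    refine sum_congr rfl fun i _ => ?_
    have h3 : (3 : ℤ) ∣ lam i v ↔ lz i (v 0 : ZMod 3) (v 1) (v 2) = 0 := by
      rw [cast3, lam_cast]
    by_cases h4 : (3 : ℤ) ∣ lam i v
    · rw [if_pos h4, if_pos (h3.1 h4)]
      rfl
    · rw [if_neg h4, if_neg (fun h => h4 (h3.2 h))]
      rfl
  rw [h2, h1]
  rfl

/-- the joint condition -/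
def PP (i : Fin 4) (r3 r5 : ℤ) (v w : V3) : Prop := ((3 : ℤ) ∣ lam i v ∧ (3 : ℤ) ∣ lam i w) ∧
  (3 : ℤ) ∣ 2 * (mu i v * mu i w) - r3 ∧ (5 : ℤ) ∣ 2 * (uu v * uu w) - r5

instance (i : Fin 4) (r3 r5 : ℤ) (v w : V3) : Decidable (PP i r3 r5 v w) := by
  unfold PP; infer_instance

/-- the sign at `5` -/
theorem ip_uu (v w : V3) : (5 : ℤ) ∣ ip v w - 2 * (uu v * uu w) := by
  refine ⟨-3 * v 0 * w 0 + v 1 * w 1 + v 2 * w 2 - v 1 * w 2 - v 2 * w 1 + v 0 * w 1 + v 0 * w 2 +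
    v 1 * w 0 + v 2 * w 0, ?_⟩
  unfold ip uu
  ring

theorem mod3_iff (b r3 : ℤ) (h : r3 = 1 ∨ r3 = 2) : b % 3 = r3 ↔ ((b : ℤ) : ZMod 3) = (r3 : ZMod 3) := by
  have h1 : ((b : ℤ) : ZMod 3) = (r3 : ZMod 3) ↔ (3 : ℤ) ∣ b - r3 := by
    rw [cast3, Int.cast_sub, sub_eq_zero]
  rw [h1]
  omega

/-- the pairs with given congruences -/
theorem pair_eq {n1 n2 : ℕ} (h1 : n1 % 3 = 2) (h2 : n2 % 3 = 2) {r3 r5 : ℤ}
    (hr3 : r3 = 1 ∨ r3 = 2) (hr5 : 0 < r5) (hr5' : r5 < 5) {v w : V3} (hv : v ∈ vec n1)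
    (hw : w ∈ vec n2) :
    ((if ip v w % 3 = r3 ∧ ip v w % 5 = r5 then (1 : ℤ) else 0) +
      (if (ip v w % 3 = r3 ∧ ip v w % 5 = r5) ∧ ∀ i, (3 : ℤ) ∣ v i + ip v w * w i then 1 else 0)) =
    ∑ i : Fin 4, if PP i r3 r5 v w then 1 else 0 := by
  have hr : (r3 : ZMod 3) ≠ 0 := by
    rcases hr3 with rfl | rfl <;> decide
  have h5 : ip v w % 5 = r5 ↔ (5 : ℤ) ∣ 2 * (uu v * uu w) - r5 := by
    have := ip_uu v w
    omega
  by_cases hb : (5 : ℤ) ∣ 2 * (uu v * uu w) - r5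
  · have h6 := fin2 _ _ _ (norm_cast3 h1 hv) _ _ _ (norm_cast3 h2 hw) _ hr
    have hk : ip v w % 3 = r3 ↔ bz (v 0 : ZMod 3) (v 1) (v 2) (w 0) (w 1) (w 2) = (r3 : ZMod 3) := by
      rw [mod3_iff _ _ hr3, ip_cast]
    have e1 : (if ip v w % 3 = r3 ∧ ip v w % 5 = r5 then (1 : ℤ) else 0) =
        ((if bz (v 0 : ZMod 3) (v 1) (v 2) (w 0) (w 1) (w 2) = (r3 : ZMod 3) then 1 else 0 : ℕ) : ℤ) := by
      by_cases hc : bz (v 0 : ZMod 3) (v 1) (v 2) (w 0) (w 1) (w 2) = (r3 : ZMod 3)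
      · rw [if_pos ⟨hk.2 hc, h5.2 hb⟩, if_pos hc]
        rfl
      · rw [if_neg (fun h => hc (hk.1 h.1)), if_neg hc]
        rfl
    have e2 : (if (ip v w % 3 = r3 ∧ ip v w % 5 = r5) ∧ ∀ i, (3 : ℤ) ∣ v i + ip v w * w i then
        (1 : ℤ) else 0) =
        ((if bz (v 0 : ZMod 3) (v 1) (v 2) (w 0) (w 1) (w 2) = (r3 : ZMod 3) ∧
          (v 0 : ZMod 3) + r3 * w 0 = 0 ∧ (v 1 : ZMod 3) + r3 * w 1 = 0 ∧
          (v 2 : ZMod 3) + r3 * w 2 = 0 then 1 else 0 : ℕ) : ℤ) := by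
      by_cases hc : ((ip v w : ℤ) : ZMod 3) = (r3 : ZMod 3)
      · have hc' := (mod3_iff _ _ hr3).2 hc
        have hc2 := hk.1 hc'
        have e3 : (∀ i, (3 : ℤ) ∣ v i + ip v w * w i) ↔ ((v 0 : ZMod 3) + r3 * w 0 = 0 ∧
            (v 1 : ZMod 3) + r3 * w 1 = 0 ∧ (v 2 : ZMod 3) + r3 * w 2 = 0) := by
          have e4 : ∀ i, (3 : ℤ) ∣ v i + ip v w * w i ↔ (v i : ZMod 3) + r3 * w i = 0 := by
            intro i
            rw [cast3]
            push_cast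
            rw [hc]
          constructor
          · intro h
            exact ⟨(e4 0).1 (h 0), (e4 1).1 (h 1), (e4 2).1 (h 2)⟩
          · rintro ⟨k0, k1, k2⟩ i
            fin_cases i
            · exact (e4 0).2 k0
            · exact (e4 1).2 k1
            · exact (e4 2).2 k2
        by_cases hd : ∀ i, (3 : ℤ) ∣ v i + ip v w * w i
        · rw [if_pos ⟨⟨hc', h5.2 hb⟩, hd⟩, if_pos ⟨hc2, e3.1 hd⟩]
          rfl
        · rw [if_neg (fun h => hd h.2), if_neg (fun h => hd (e3.2 h.2))]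
          rfl
      · rw [if_neg (fun h => hc ((mod3_iff _ _ hr3).1 h.1.1)),
          if_neg (fun h => hc ((mod3_iff _ _ hr3).1 (hk.2 h.1)))]
        rfl
    rw [e1, e2, ← Nat.cast_add, h6, Nat.cast_sum]
    refine sum_congr rfl fun i _ => ?_
    have e5 : PP i r3 r5 v w ↔ (lz i (v 0 : ZMod 3) (v 1) (v 2) = 0 ∧
        lz i (w 0 : ZMod 3) (w 1) (w 2) = 0 ∧ 2 * (mz i (v 0 : ZMod 3) (v 1) (v 2) *
          mz i (w 0 : ZMod 3) (w 1) (w 2)) = r3) := by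
      unfold PP
      rw [cast3, cast3, cast3, lam_cast, lam_cast]
      push_cast
      rw [mu_cast, mu_cast, sub_eq_zero]
      tauto
    by_cases hc : PP i r3 r5 v w
    · rw [if_pos hc, if_pos (e5.1 hc)]
      rfl
    · rw [if_neg hc, if_neg (fun h => hc (e5.2 h))]
      rfl
  · rw [if_neg (fun h => hb (h5.1 h.2)), if_neg (fun h => hb (h5.1 h.1.2)), add_zero]
    symm
    refine sum_eq_zero fun i _ => ?_
    rw [if_neg]
    rintro ⟨-, -, h⟩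
    exact hb h

/-- sums over the vectors are invariant under isometries -/
theorem sum_inv (n : ℤ) (f g : V3 → V3) (hf : ∀ v, ip (f v) (f v) = ip v v)
    (hg : ∀ v, ip (g v) (g v) = ip v v) (h1 : ∀ v, g (f v) = v) (h2 : ∀ v, f (g v) = v)
    (F : V3 → ℤ) : ∑ v ∈ vec n, F (f v) = ∑ v ∈ vec n, F v := by
  refine Finset.sum_nbij' f g ?_ ?_ ?_ ?_ ?_
  · intro v hv
    rw [mem_vec] at hv ⊢
    rw [hf, hv]
  · intro v hv
    rw [mem_vec] at hv ⊢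
    rw [hg, hv]
  · intro v _
    exact h1 v
  · intro v _
    exact h2 v
  · intro v _
    rfl

theorem uu_sq {n : ℕ} {v : V3} (hv : v ∈ vec n) : (5 : ℤ) ∣ (n : ℤ) - 2 * (uu v * uu v) := by
  rw [mem_vec] at hv
  rw [← hv]
  exact ip_uu v v

theorem mod5_sq {a r N : ℤ} (h1 : (5 : ℤ) ∣ a ^ 2 - N) (h2 : (5 : ℤ) ∣ r ^ 2 - N) :
    (5 : ℤ) ∣ a - r ∨ (5 : ℤ) ∣ a + r := by
  have h3 : (5 : ℤ) ∣ (a - r) * (a + r) := by
    have := dvd_sub h1 h2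
    have e : a ^ 2 - N - (r ^ 2 - N) = (a - r) * (a + r) := by ring
    rwa [e] at this
  exact Int.Prime.dvd_mul' (by norm_num) h3

theorem mod3_cases {m : ℤ} (h : ¬ (3 : ℤ) ∣ m) {r3 : ℤ} (hr3 : r3 = 1 ∨ r3 = 2) :
    ((3 : ℤ) ∣ 2 * m - r3 ∧ ¬ (3 : ℤ) ∣ 2 * (-m) - r3) ∨
    (¬ (3 : ℤ) ∣ 2 * m - r3 ∧ (3 : ℤ) ∣ 2 * (-m) - r3) := by
  have h1 : m % 3 = 1 ∨ m % 3 = 2 := by omega
  rcases h1 with h1 | h1 <;> rcases hr3 with rfl | rfl
  · right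
    constructor <;> omega
  · left
    constructor <;> omega
  · left
    constructor <;> omega
  · right
    constructor <;> omega

theorem mod5_cases {m r5 : ℤ} (hr5 : 0 < r5) (hr5' : r5 < 5)
    (h : (5 : ℤ) ∣ 2 * m - r5 ∨ (5 : ℤ) ∣ 2 * m + r5) :
    ((5 : ℤ) ∣ 2 * m - r5 ∧ ¬ (5 : ℤ) ∣ 2 * (-m) - r5) ∨
    (¬ (5 : ℤ) ∣ 2 * m - r5 ∧ (5 : ℤ) ∣ 2 * (-m) - r5) := by
  omega

theorem mu_ne {n : ℕ} (h : n % 3 = 2) {v : V3} (hv : v ∈ vec n) (i : Fin 4)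
    (hl : (3 : ℤ) ∣ lam i v) : ¬ (3 : ℤ) ∣ mu i v := by
  rw [cast3, mu_cast]
  rw [cast3, lam_cast] at hl
  exact fin3 _ _ _ (norm_cast3 h hv) i hl

/-- the four signs are equally distributed -/
theorem four_pt {n1 n2 : ℕ} (h1 : n1 % 3 = 2) (h2 : n2 % 3 = 2) {r3 r5 : ℤ}
    (hr3 : r3 = 1 ∨ r3 = 2) (hr5 : 0 < r5) (hr5' : r5 < 5) (hr : (5 : ℤ) ∣ r5 ^ 2 - n1 * n2)
    {v w : V3} (hv : v ∈ vec n1) (hw : w ∈ vec n2) (i : Fin 4) :
    (if PP i r3 r5 v w then (1 : ℤ) else 0) + (if PP i r3 r5 (-v) w then 1 else 0) +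
      (if PP i r3 r5 (s2 i v) w then 1 else 0) + (if PP i r3 r5 (-(s2 i v)) w then 1 else 0) =
      if (3 : ℤ) ∣ lam i v ∧ (3 : ℤ) ∣ lam i w then 1 else 0 := by
  have q1 : PP i r3 r5 (-v) w ↔ ((3 : ℤ) ∣ lam i v ∧ (3 : ℤ) ∣ lam i w) ∧
      (3 : ℤ) ∣ 2 * (-(mu i v * mu i w)) - r3 ∧ (5 : ℤ) ∣ 2 * (-(uu v * uu w)) - r5 := by
    unfold PP
    rw [lam_neg, dvd_neg, mu_neg, uu_neg, neg_mul, neg_mul]
  have q2 : PP i r3 r5 (s2 i v) w ↔ ((3 : ℤ) ∣ lam i v ∧ (3 : ℤ) ∣ lam i w) ∧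
      (3 : ℤ) ∣ 2 * (mu i v * mu i w) - r3 ∧ (5 : ℤ) ∣ 2 * (-(uu v * uu w)) - r5 := by
    unfold PP
    rw [lam_s2, dvd_neg, uu_s2, neg_mul]
    refine and_congr_right fun hL => and_congr_left fun _ => ?_
    have hs := mu_s2 i v hL.1
    have e : 2 * (mu i (s2 i v) * mu i w) - r3 = 2 * (mu i v * mu i w) - r3 +
      (mu i (s2 i v) - mu i v) * (2 * mu i w) := by ring
    rw [e]
    exact (dvd_add_left (hs.mul_right _))
  have q3 : PP i r3 r5 (-(s2 i v)) w ↔ ((3 : ℤ) ∣ lam i v ∧ (3 : ℤ) ∣ lam i w) ∧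
      (3 : ℤ) ∣ 2 * (-(mu i v * mu i w)) - r3 ∧ (5 : ℤ) ∣ 2 * (uu v * uu w) - r5 := by
    unfold PP
    rw [lam_neg, lam_s2, neg_neg, mu_neg, uu_neg, uu_s2, neg_neg]
    refine and_congr_right fun hL => and_congr_left fun _ => ?_
    have hs := mu_s2 i v hL.1
    have e : 2 * (-mu i (s2 i v) * mu i w) - r3 = 2 * (-(mu i v * mu i w)) - r3 +
      (mu i (s2 i v) - mu i v) * (-2 * mu i w) := by ring
    rw [e]
    exact (dvd_add_left (hs.mul_right _))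
  have q0 : PP i r3 r5 v w ↔ ((3 : ℤ) ∣ lam i v ∧ (3 : ℤ) ∣ lam i w) ∧
      (3 : ℤ) ∣ 2 * (mu i v * mu i w) - r3 ∧ (5 : ℤ) ∣ 2 * (uu v * uu w) - r5 := Iff.rfl
  simp only [q0, q1, q2, q3]
  by_cases hL : (3 : ℤ) ∣ lam i v ∧ (3 : ℤ) ∣ lam i w
  · have hm : ¬ (3 : ℤ) ∣ mu i v * mu i w := fun h =>
      (Int.Prime.dvd_mul' (by norm_num) h).elim (mu_ne h1 hv i hL.1) (mu_ne h2 hw i hL.2)
    have hu : (5 : ℤ) ∣ 2 * (uu v * uu w) - r5 ∨ (5 : ℤ) ∣ 2 * (uu v * uu w) + r5 := by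
      refine mod5_sq (N := n1 * n2) ?_ hr
      have k1 := uu_sq hv
      have k2 := uu_sq hw
      have e : (2 * (uu v * uu w)) ^ 2 - (n1 : ℤ) * n2 =
        -((n1 : ℤ) - 2 * (uu v * uu v)) * n2 - (2 * (uu v * uu v)) * ((n2 : ℤ) - 2 * (uu w * uu w)) := by
        ring
      rw [e]
      exact dvd_sub (((dvd_neg).2 k1).mul_right _) (k2.mul_left _)
    have c3 := mod3_cases hm hr3
    have c5 := mod5_cases hr5 hr5' hu
    rcases c3 with c3 | c3 <;> rcases c5 with c5 | c5 <;> simp only [hL, c3, c5] <;> norm_num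
  · have a1 : ∀ p : Prop, ¬ (((3 : ℤ) ∣ lam i v ∧ (3 : ℤ) ∣ lam i w) ∧ p) := fun p h => hL h.1
    rw [if_neg (a1 _), if_neg (a1 _), if_neg (a1 _), if_neg (a1 _), if_neg hL]
    rfl

/-- the sum over the first vector -/
theorem four_sum {n1 n2 : ℕ} (h1 : n1 % 3 = 2) (h2 : n2 % 3 = 2) {r3 r5 : ℤ}
    (hr3 : r3 = 1 ∨ r3 = 2) (hr5 : 0 < r5) (hr5' : r5 < 5) (hr : (5 : ℤ) ∣ r5 ^ 2 - n1 * n2)
    {w : V3} (hw : w ∈ vec n2) (i : Fin 4) :
    4 * ∑ v ∈ vec n1, (if PP i r3 r5 v w then (1 : ℤ) else 0) =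
      ∑ v ∈ vec n1, if (3 : ℤ) ∣ lam i v ∧ (3 : ℤ) ∣ lam i w then 1 else 0 := by
  have k1 := sum_inv n1 (fun v => -v) (fun v => -v) (fun v => ip_neg v v) (fun v => ip_neg v v)
    (fun v => neg_neg v) (fun v => neg_neg v) (fun v => if PP i r3 r5 v w then (1 : ℤ) else 0)
  have k2 := sum_inv n1 (s2 i) (s2 i) (fun v => ip_s2 i v v) (fun v => ip_s2 i v v)
    (fun v => s2_s2 i v) (fun v => s2_s2 i v) (fun v => if PP i r3 r5 v w then (1 : ℤ) else 0)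
  have k3 := sum_inv n1 (s2 i) (s2 i) (fun v => ip_s2 i v v) (fun v => ip_s2 i v v)
    (fun v => s2_s2 i v) (fun v => s2_s2 i v) (fun v => if PP i r3 r5 (-v) w then (1 : ℤ) else 0)
  rw [← sum_congr rfl fun v hv => four_pt h1 h2 hr3 hr5 hr5' hr hv hw i, sum_add_distrib,
    sum_add_distrib, sum_add_distrib]
  linarith

/-- the number of the vectors on a line -/
noncomputable def NN (i : Fin 4) (n : ℤ) : ℤ := ∑ v ∈ vec n, if (3 : ℤ) ∣ lam i v then 1 else 0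

theorem NN_eq (n : ℤ) : NN 2 n = NN 1 n ∧ NN 3 n = NN 1 n := by
  have hg : ∀ v, g3 (g3 v) = g3 (g3 v) := fun v => rfl
  have hi : ∀ v, ip (g3 (g3 v)) (g3 (g3 v)) = ip v v := fun v => by rw [ip_g3, ip_g3]
  have k1 := sum_inv n g3 (fun v => g3 (g3 v)) (fun v => ip_g3 v v) hi (fun v => g3_g3 v)
    (fun v => g3_g3 v) (fun v => if (3 : ℤ) ∣ lam 1 v then (1 : ℤ) else 0)
  have k2 := sum_inv n g3 (fun v => g3 (g3 v)) (fun v => ip_g3 v v) hi (fun v => g3_g3 v)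
    (fun v => g3_g3 v) (fun v => if (3 : ℤ) ∣ lam 3 v then (1 : ℤ) else 0)
  simp only [(lam_g3 _).1, (lam_g3 _).2.1, (lam_g3 _).2.2] at k1 k2
  exact ⟨k1, k2.symm⟩

theorem NN_zero (n : ℤ) : NN 0 n = rr0 n := by
  unfold NN rr0
  rw [Finset.card_filter]
  push_cast
  rfl

theorem NN_sum {n : ℕ} (h : n % 3 = 2) : NN 0 n + 3 * NN 1 n = 2 * rr n := by
  have h1 : ∑ i : Fin 4, NN i n = 2 * rr n := by
    unfold NN rr
    rw [Finset.sum_comm, Finset.sum_congr rfl fun v hv => two_lines h hv, Finset.sum_const,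
      nsmul_eq_mul]
    ring
  rw [Fin.sum_univ_four, (NN_eq n).1, (NN_eq n).2] at h1
  linarith

/-- the pairs -/
theorem pair_count {n1 n2 : ℕ} (h1 : n1 % 3 = 2) (h2 : n2 % 3 = 2) {r3 r5 : ℤ}
    (hr3 : r3 = 1 ∨ r3 = 2) (hr5 : 0 < r5) (hr5' : r5 < 5) {B : ℤ} (hB : (n1 : ℤ) * n2 < B ^ 2)
    (hB0 : 0 < B) :
    ∑ b ∈ (Ioo (-B) B).filter (fun b : ℤ => b % 3 = r3 ∧ b % 5 = r5),
      ((cp n1 b n2 : ℤ) + cp3 n1 b n2) =
    ∑ i : Fin 4, ∑ w ∈ vec n2, ∑ v ∈ vec n1, if PP i r3 r5 v w then 1 else 0 := by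
  have a1 : ∀ b : ℤ, (cp n1 b n2 : ℤ) = ∑ q ∈ vec n1 ×ˢ vec n2, if ip q.1 q.2 = b then 1 else 0 := by
    intro b
    unfold cp
    rw [Finset.card_filter]
    push_cast
    rfl
  have a2 : ∀ b : ℤ, (cp3 n1 b n2 : ℤ) = ∑ q ∈ vec n1 ×ˢ vec n2,
      if ip q.1 q.2 = b ∧ ∀ i, (3 : ℤ) ∣ q.1 i + b * q.2 i then 1 else 0 := by
    intro b
    unfold cp3
    rw [Finset.card_filter]
    push_cast
    rfl
  have a3 : ∑ i : Fin 4, ∑ w ∈ vec n2, ∑ v ∈ vec n1, (if PP i r3 r5 v w then (1 : ℤ) else 0) =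
      ∑ q ∈ vec n1 ×ˢ vec n2, ∑ i : Fin 4, if PP i r3 r5 q.1 q.2 then 1 else 0 := by
    rw [Finset.sum_comm (s := vec n1 ×ˢ vec n2)]
    refine sum_congr rfl fun i _ => ?_
    rw [Finset.sum_product, Finset.sum_comm]
  rw [a3, sum_congr rfl fun b _ => congrArg₂ (· + ·) (a1 b) (a2 b)]
  rw [sum_congr rfl fun b _ => (sum_add_distrib).symm, Finset.sum_comm]
  refine sum_congr rfl fun q hq => ?_
  obtain ⟨hv, hw⟩ := Finset.mem_product.1 hq
  rw [← pair_eq h1 h2 hr3 hr5 hr5' hv hw, sum_add_distrib]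
  have hb : ip q.1 q.2 ∈ Ioo (-B) B := by
    have hc := cauchy q.1 q.2
    rw [(mem_vec _ _).1 hv, (mem_vec _ _).1 hw] at hc
    have := abs_lt_of_sq_lt_sq (lt_of_le_of_lt hc hB) hB0.le
    rw [abs_lt] at this
    exact Finset.mem_Ioo.2 this
  congr 1
  · rw [Finset.sum_ite_eq]
    refine if_congr ?_ rfl rfl
    rw [Finset.mem_filter]
    exact ⟨fun h => h.2, fun h => ⟨hb, h⟩⟩
  · by_cases hc : (ip q.1 q.2 % 3 = r3 ∧ ip q.1 q.2 % 5 = r5) ∧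
        ∀ i, (3 : ℤ) ∣ q.1 i + ip q.1 q.2 * q.2 i
    · rw [if_pos hc, Finset.sum_eq_single (ip q.1 q.2)]
      · rw [if_pos ⟨rfl, hc.2⟩]
      · intro b _ hne
        rw [if_neg]
        rintro ⟨h, -⟩
        exact hne h.symm
      · intro h
        exact absurd (Finset.mem_filter.2 ⟨hb, hc.1⟩) h
    · rw [if_neg hc]
      refine sum_eq_zero fun b hbb => ?_
      rw [if_neg]
      rintro ⟨rfl, h⟩
      exact hc ⟨(Finset.mem_filter.1 hbb).2, h⟩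

/-- **REL22** -/
theorem t_REL22 : S_REL22 := by
  intro n1 n2 h1 h2 _ _ r3 r5 hr3 hr5 hr5' hr B hB hB0
  rw [pair_count h1 h2 hr3 hr5 hr5' hB hB0]
  have h4 : 4 * ∑ i : Fin 4, ∑ w ∈ vec n2, ∑ v ∈ vec n1, (if PP i r3 r5 v w then (1 : ℤ) else 0) =
      ∑ i : Fin 4, NN i n1 * NN i n2 := by
    rw [Finset.mul_sum]
    refine sum_congr rfl fun i _ => ?_
    rw [Finset.mul_sum, sum_congr rfl fun w hw => four_sum h1 h2 hr3 hr5 hr5' hr hw i]
    unfold NN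
    rw [Finset.sum_mul_sum, Finset.sum_comm]
    refine sum_congr rfl fun v _ => sum_congr rfl fun w _ => ?_
    by_cases ha : (3 : ℤ) ∣ lam i v <;> by_cases hb : (3 : ℤ) ∣ lam i w <;> simp [ha, hb]
  have h5 : ∑ i : Fin 4, NN i n1 * NN i n2 = NN 0 n1 * NN 0 n2 + 3 * (NN 1 n1 * NN 1 n2) := by
    rw [Fin.sum_univ_four, (NN_eq n1).1, (NN_eq n1).2, (NN_eq n2).1, (NN_eq n2).2]
    ring
  rw [h5] at h4
  have k1 := NN_sum h1
  have k2 := NN_sum h2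
  have hc : ∀ n : ℕ, n % 3 = 2 → cc n = rr n - 2 * rr0 n := by
    intro n hn
    unfold cc
    rw [if_neg]
    omega
  rw [hc n1 h1, hc n2 h2, ← NN_zero, ← NN_zero]
  have k3 : 3 * NN 1 n1 * (3 * NN 1 n2) = (2 * rr n1 - NN 0 n1) * (2 * rr n2 - NN 0 n2) := by
    rw [← k1, ← k2]
    ring
  linear_combination 3 * h4 + k3

end Pool.Agent.N973.P15
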