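import Mathlib
import Pool.Agent.N973.P15.Defs3

/-!
# Twists of `X_0(15)`: the symbol at the cusps with denominator divisible by `5` and not by `3`
-/

set_option autoImplicit false

namespace Pool.Agent.N973.P15

open Finset
open Pool.Agent.N969.P15

noncomputable section

/-- the boundary term -/
def bt (j M : ℤ) : ℤ := (if M < 6 * j ∧ 3 * j < M then 1 else 0) -
  (if 2 * M < 3 * j ∧ 6 * j < 5 * M then 1 else 0)

/-- SYMB: the symbol on the cusps with denominator divisible by `5` and not by `3` -/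
def S_SYMB : Prop := ∀ (s : ℚ → ℤ) (a : ℕ → ℤ), Pool.Agent.N974.MF.Symb15 s a →
  ∀ x M j : ℤ, 0 < M → 5 ∣ M → ¬ 3 ∣ M → IsCoprime x M → 0 ≤ j → j < M → M ∣ 3 * j * x - 1 →
    s ((x : ℚ) / M) = s (1 / 3) * (-FA x M + bt j M)

/-- CHB: the character sum over the middle interval, odd discriminants -/
def S_CHB : Prop := ∀ n : ℕ, Squarefree n → n % 4 = 3 → n % 3 = 2 →
  ∑ j ∈ (range n).filter (fun j => n < 6 * j ∧ 3 * j < n), jacobiSym j n = 0

/-- CHBE: the character sum over the middle interval, even discriminants -/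
def S_CHBE : Prop := ∀ n : ℕ, Ev n → n % 3 = 2 →
  ∑ j ∈ (range n).filter (fun j => n < 6 * j ∧ 3 * j < n), chE n j = 0

/-- SUMB: the character sum of the symbol -/
def S_SUMB : Prop := ∀ (s : ℚ → ℤ) (a : ℕ → ℤ), Pool.Agent.N974.MF.Symb15 s a →
  (∀ n : ℕ, Cl5 n → ∑ u ∈ un n, jacobiSym u n * s ((u : ℚ) / n) =
    -s (1 / 3) * ∑ u ∈ un n, jacobiSym u n * FA u n) ∧
  (∀ n : ℕ, Cl5e n → ∑ u ∈ un n, chE n u * s ((u : ℚ) / n) =
    -s (1 / 3) * ∑ u ∈ un n, chE n u * FA u n)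

end

end Pool.Agent.N973.P15
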