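import Pool.Agent.N973.P15.CP3

/-!
# P15: the bilinear identities
-/

set_option autoImplicit false

namespace Pool.Agent.N973.P15

open Finset
open Pool.Agent.N969.P15

theorem loc3_odd (n D : ℕ) (h : ¬ 2 ∣ D) : loc3 n D = 0 := by
  unfold loc3 lrest tw
  rw [Nat.factorization_eq_zero_of_not_dvd h]
  simp

theorem AA_eq (hC : S_CP3) {n n2 N : ℕ} (hs : Squarefree n) (h4 : n % 4 = 3) (h3 : n % 3 = 2)
    (h5 : ¬ 5 ∣ n) (h23 : n2 % 3 = 2) (hN : n * n2 = N ^ 2) (hN3 : ¬ 3 ∣ N) (hN5 : ¬ 5 ∣ N) :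
    ∑ b ∈ (Ioo (-((N : ℤ) + 1)) ((N : ℤ) + 1)).filter
      (fun b : ℤ => b % 3 = (-(N : ℤ)) % 3 ∧ b % 5 = (N : ℤ) % 5),
      ((cp n b n2 : ℤ) + cp3 n b n2) = 12 * AA n N := by
  have hNN : (n : ℤ) * n2 = (N : ℤ) ^ 2 := by exact_mod_cast hN
  have h1 : ∀ b ∈ (Ioo (-((N : ℤ) + 1)) ((N : ℤ) + 1)).filter
      (fun b : ℤ => b % 3 = (-(N : ℤ)) % 3 ∧ b % 5 = (N : ℤ) % 5),
      ((cp n b n2 : ℤ) + cp3 n b n2) = 12 * loc3 n ((N : ℤ) ^ 2 - b ^ 2).toNat := by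
    intro b hb
    obtain ⟨h6, h7, h8⟩ := Finset.mem_filter.1 hb
    obtain ⟨h9, h10⟩ := Finset.mem_Ioo.1 h6
    have h11 : b ≠ N := by
      rintro rfl
      omega
    have h12 : b ≠ -N := by
      rintro rfl
      omega
    have h13 : 0 < (N : ℤ) ^ 2 - b ^ 2 := by
      have e : (N : ℤ) ^ 2 - b ^ 2 = (N - b) * (N + b) := by ring
      rw [e]
      exact mul_pos (by omega) (by omega)
    refine hC n n2 b _ hs h4 h3 h23 h5 (by omega) (by omega) ?_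
    rw [Int.toNat_of_nonneg h13.le, hNN]
  rw [Finset.sum_congr rfl h1, ← Finset.mul_sum]
  congr 1
  unfold AA
  rw [← Finset.sum_filter_add_sum_filter_not _ (fun b : ℤ => (2 : ℤ) ∣ N - b)]
  have h2 : ∑ b ∈ ((Ioo (-((N : ℤ) + 1)) ((N : ℤ) + 1)).filter
      (fun b : ℤ => b % 3 = (-(N : ℤ)) % 3 ∧ b % 5 = (N : ℤ) % 5)).filter
      (fun b : ℤ => ¬ (2 : ℤ) ∣ N - b), loc3 n ((N : ℤ) ^ 2 - b ^ 2).toNat = 0 := by
    refine Finset.sum_eq_zero fun b hb => ?_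
    obtain ⟨h6, h7⟩ := Finset.mem_filter.1 hb
    obtain ⟨h9, h10⟩ := Finset.mem_Ioo.1 (Finset.mem_filter.1 h6).1
    apply loc3_odd
    intro h
    have e : (N : ℤ) ^ 2 - b ^ 2 = (N - b) * (N + b) := by ring
    have h13 : 0 ≤ (N : ℤ) ^ 2 - b ^ 2 := by
      rw [e]
      exact mul_nonneg (by omega) (by omega)
    have h14 : (2 : ℤ) ∣ (N : ℤ) ^ 2 - b ^ 2 := by
      rw [← Int.toNat_of_nonneg h13]
      exact_mod_cast h
    rw [e] at h14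
    rcases Int.Prime.dvd_mul' (p := 2) (by norm_num) h14 with h | h <;> omega
  rw [h2, add_zero]
  refine Finset.sum_bij' (fun b _ => (((N : ℤ) - b) / 2).toNat) (fun T _ => (N : ℤ) - 2 * T) ?_ ?_ ?_ ?_ ?_
  · intro b hb
    obtain ⟨h6, h7⟩ := Finset.mem_filter.1 hb
    obtain ⟨h8, h11, h12⟩ := Finset.mem_filter.1 h6
    obtain ⟨h9, h10⟩ := Finset.mem_Ioo.1 h8
    rw [Finset.mem_filter, Finset.mem_range]
    have h13 : b ≠ -N := by
      rintro rfl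
      omega
    obtain ⟨c, hc⟩ := h7
    have h14 : ((N : ℤ) - b) / 2 = c := by omega
    rw [h14]
    refine ⟨by omega, ?_, ?_⟩
    · omega
    · omega
  · intro T hT
    rw [Finset.mem_filter, Finset.mem_range] at hT
    obtain ⟨h6, h7, h8⟩ := hT
    rw [Finset.mem_filter, Finset.mem_filter, Finset.mem_Ioo]
    refine ⟨⟨⟨by omega, by omega⟩, by omega, by omega⟩, by omega⟩
  · intro b hb
    obtain ⟨h6, h7⟩ := Finset.mem_filter.1 hb
    obtain ⟨h9, h10⟩ := Finset.mem_Ioo.1 (Finset.mem_filter.1 h6).1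
    omega
  · intro T hT
    omega
  · intro b hb
    obtain ⟨h6, h7⟩ := Finset.mem_filter.1 hb
    obtain ⟨h8, h11, h12⟩ := Finset.mem_filter.1 h6
    obtain ⟨h9, h10⟩ := Finset.mem_Ioo.1 h8
    congr 1
    obtain ⟨c, hc⟩ := h7
    have h14 : ((N : ℤ) - b) / 2 = c := by omega
    rw [h14]
    have hc0 : 0 ≤ c := by omega
    obtain ⟨T, rfl⟩ := Int.eq_ofNat_of_zero_le hc0
    have h15 : T ≤ N := by omega
    rw [Int.toNat_natCast]
    have h16 : (N : ℤ) ^ 2 - b ^ 2 = ((4 * (N - T) * T : ℕ) : ℤ) := by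
      push_cast [Nat.cast_sub h15]
      have : b = N - 2 * T := by linarith
      rw [this]
      ring
    rw [h16, Int.toNat_natCast]

/-- **BIL1** -/
theorem t_BIL1 (hR : S_REL22) (hC : S_CP3) : S_BIL1 := by
  rintro n ⟨hs, hn⟩
  have h4 : n % 4 = 3 := by omega
  have h3 : n % 3 = 2 := by omega
  have h5 : ¬ 5 ∣ n := by omega
  have h1 := AA_eq hC hs h4 h3 h5 h3 (sq n).symm (by omega) h5
  have h2 := hR n n h3 h3 h5 h5 ((-(n : ℤ)) % 3) ((n : ℤ) % 5) (by omega) (by omega) (by omega) (by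
    have e : ((n : ℤ) % 5) ^ 2 - (n : ℤ) * n = -(5 * ((n : ℤ) / 5)) * ((n : ℤ) % 5 + n) := by
      have := Int.emod_add_mul_ediv (n : ℤ) 5
      have e2 : 5 * ((n : ℤ) / 5) = n - (n : ℤ) % 5 := by linarith
      rw [e2]
      ring
    rw [e]
    exact ⟨-((n : ℤ) / 5) * ((n : ℤ) % 5 + n), by ring⟩) (n + 1) (by nlinarith) (by omega)
  rw [h1] at h2
  rw [sq, sq]
  linarith

/-- **BIL2** -/
theorem t_BIL2 (hR : S_REL22) (hC : S_CP3) : S_BIL2 := by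
  rintro n ⟨hs, hn⟩
  have h4 : n % 4 = 3 := by omega
  have h3 : n % 3 = 2 := by omega
  have h5 : ¬ 5 ∣ n := by omega
  have h1 := AA_eq (n2 := 4 * n) (N := 2 * n) hC hs h4 h3 h5 (by omega) (by ring) (by omega) (by omega)
  have h2 := hR n (4 * n) h3 (by omega) h5 (by omega) ((-((2 * n : ℕ) : ℤ)) % 3) (((2 * n : ℕ) : ℤ) % 5)
    (by omega) (by omega) (by omega) (by
    have e : (((2 * n : ℕ) : ℤ) % 5) ^ 2 - (n : ℤ) * ((4 * n : ℕ) : ℤ) =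
        -(5 * (((2 * n : ℕ) : ℤ) / 5)) * (((2 * n : ℕ) : ℤ) % 5 + ((2 * n : ℕ) : ℤ)) := by
      have := Int.emod_add_mul_ediv ((2 * n : ℕ) : ℤ) 5
      have e2 : 5 * (((2 * n : ℕ) : ℤ) / 5) = ((2 * n : ℕ) : ℤ) - ((2 * n : ℕ) : ℤ) % 5 := by linarith
      rw [e2]
      push_cast
      ring
    rw [e]
    exact ⟨-(((2 * n : ℕ) : ℤ) / 5) * (((2 * n : ℕ) : ℤ) % 5 + ((2 * n : ℕ) : ℤ)), by ring⟩)
    (((2 * n : ℕ) : ℤ) + 1) (by push_cast; nlinarith) (by omega)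
  rw [h1] at h2
  have e : ((4 * n : ℕ) : ℤ) = 4 * (n : ℤ) := by push_cast; rfl
  rw [e] at h2
  linarith

end Pool.Agent.N973.P15
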