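import Pool.Agent.N973.P15.BIL
import Pool.Agent.N969.P15.Defs2

/-!
# P15: evaluation of `cp + cp3` and the bilinear identities for the even discriminants
-/

set_option autoImplicit false

namespace Pool.Agent.N973.P15

open Finset
open Pool.Agent.N969.P15
open Pool.Agent.Z700 (hh fac)

/-- the part of the local densities away from `3` -/
noncomputable def lrE (n1 : ℕ) (b : ℤ) (D : ℕ) : ℤ :=
  if Odd (D.factorization 5) then
    tb b * ∏ l ∈ ((D.primeFactors.erase 2).erase 3).erase 5, fac n1 D l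
  else 0

theorem loc3E_eq (n1 : ℕ) (b : ℤ) (D : ℕ) : loc3E n1 b D = (D.factorization 3 : ℤ) * lrE n1 b D := by
  unfold loc3E lrE
  split_ifs
  · rfl
  · rw [mul_zero]

theorem lrE9 (n1 : ℕ) {b b' : ℤ} (hb : tb b' = tb b) (D' : ℕ) (hD' : 0 < D') :
    lrE n1 b (9 * D') = lrE n1 b' D' := by
  unfold lrE
  rw [fact9 D' 5 hD' (by norm_num) (by norm_num), pf9 D' hD', hb]
  split_ifs
  · congr 1
    refine Finset.prod_congr rfl fun l hl => ?_
    have h1 := Finset.mem_erase.1 (Finset.mem_erase.1 hl).2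
    exact fac9 n1 D' l hD' (Nat.prime_of_mem_primeFactors (Finset.mem_erase.1 h1.2).2) h1.1
  · rfl

/-- the factor at `3` -/
theorem locE_eq {n1 : ℕ} (h : n1 % 3 = 2) (b : ℤ) (D : ℕ) (hD : 0 < D) :
    locE n1 b D = ((D.factorization 3 : ℤ) + 1) * lrE n1 b D := by
  unfold locE lrE
  split_ifs with h5
  · have h1 : ∏ l ∈ (D.primeFactors.erase 2).erase 5, fac n1 D l =
        ((D.factorization 3 : ℤ) + 1) * ∏ l ∈ ((D.primeFactors.erase 2).erase 3).erase 5,
          fac n1 D l := by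
      rw [Finset.erase_right_comm (a := 3) (b := 5)]
      by_cases h3 : 3 ∈ (D.primeFactors.erase 2).erase 5
      · rw [← Finset.mul_prod_erase _ _ h3, fac3 h]
      · rw [Finset.erase_eq_of_notMem h3]
        have h2 : D.factorization 3 = 0 := by
          apply Nat.factorization_eq_zero_of_not_dvd
          intro h4
          apply h3
          rw [Finset.mem_erase, Finset.mem_erase, Nat.mem_primeFactors]
          exact ⟨by norm_num, by norm_num, by norm_num, h4, hD.ne'⟩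
        rw [h2]
        simp
    rw [h1]
    ring
  · rw [mul_zero]

theorem tb_odd {b : ℤ} (h : ¬ (2 : ℤ) ∣ b) : tb b = 0 := by
  unfold tb
  rw [if_neg (by omega), if_neg (by omega)]

theorem cp3_le (n1 b n2 : ℤ) : cp3 n1 b n2 ≤ cp n1 b n2 := by
  unfold cp3 cp
  refine Finset.card_le_card fun q hq => ?_
  rw [Finset.mem_filter] at hq ⊢
  exact ⟨hq.1, hq.2.1⟩

/-- **CP3E** -/
theorem t_CP3E (hPC : S_PCE) : S_CP3E := by
  intro n1 n2 b D hs h5 h1 h4 h2 hb hD hDD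
  have hcp := hPC n1 n2 b D hs h5 h4 hD hDD
  have h41 : 4 ∣ n1 := by
    obtain ⟨m, rfl, -⟩ := hs
    exact dvd_mul_right 4 m
  rw [loc3E_eq]
  by_cases hb2 : (2 : ℤ) ∣ b
  · rw [hcp, locE_eq h1 b D hD]
    have hb3 := sq_mod3 hb
    have h3D : 3 ∣ D := by
      have : (3 : ℤ) ∣ (D : ℤ) := by
        rw [hDD]
        have e : (n1 : ℤ) * n2 - b ^ 2 = ((n1 : ℤ) * n2 - 1) - (b ^ 2 - 1) := by ring
        rw [e]
        refine dvd_sub ?_ hb3
        obtain ⟨c, hc⟩ : ∃ c : ℤ, (n1 : ℤ) = 3 * c + 2 := ⟨n1 / 3, by omega⟩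
        obtain ⟨d, hd⟩ : ∃ d : ℤ, (n2 : ℤ) = 3 * d + 2 := ⟨n2 / 3, by omega⟩
        rw [hc, hd]
        exact ⟨3 * c * d + 2 * c + 2 * d + 1, by ring⟩
      exact_mod_cast this
    by_cases h9 : 9 ∣ D
    · obtain ⟨D', rfl⟩ := h9
      have hD' : 0 < D' := by omega
      have h3n : (3 : ℤ) ∣ b + b * n1 := by
        have e : b + b * (n1 : ℤ) = b * (1 + n1) := by ring
        rw [e]
        exact Dvd.dvd.mul_left (by omega) _
      obtain ⟨b', hb'⟩ := h3n
      have h9n : (9 : ℤ) ∣ n2 + 2 * b ^ 2 + b ^ 2 * n1 := by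
        have hc : IsCoprime (9 : ℤ) n1 := by
          have : IsCoprime (3 : ℤ) n1 := by
            rw [Prime.coprime_iff_not_dvd Int.prime_three]
            omega
          have h := IsCoprime.mul_left this this
          norm_num at h
          exact h
        refine hc.dvd_of_dvd_mul_left ?_
        have e : (n1 : ℤ) * (n2 + 2 * b ^ 2 + b ^ 2 * n1) = 9 * (D' : ℤ) + (b + b * n1) ^ 2 := by
          push_cast at hDD
          rw [hDD]
          ring
        rw [e, hb']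
        exact ⟨D' + b' ^ 2, by ring⟩
      obtain ⟨n2', hn2'⟩ := h9n
      have hn0 : 0 ≤ n2' := by
        have : 0 ≤ 9 * n2' := by
          rw [← hn2']
          positivity
        omega
      obtain ⟨N2, rfl⟩ := Int.eq_ofNat_of_zero_le hn0
      have hc3 := cp3_eq n1 b n2 b' N2 hb hb'.symm hn2'.symm
      rw [hc3]
      have hDD' : (D' : ℤ) = n1 * N2 - b' ^ 2 := by
        have : 9 * (D' : ℤ) = 9 * (n1 * N2 - b' ^ 2) := by
          have e1 : (9 : ℤ) * (n1 * N2 - b' ^ 2) = n1 * (9 * N2) - (3 * b') ^ 2 := by ring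
          push_cast at hDD
          rw [e1, ← hb', ← hn2', hDD]
          ring
        linarith
      obtain ⟨c, rfl⟩ := hb2
      obtain ⟨n, rfl⟩ := h41
      obtain ⟨n', rfl⟩ := h4
      have h4N : 4 ∣ N2 := by
        have : (4 : ℤ) ∣ 9 * (N2 : ℤ) := by
          rw [← hn2']
          push_cast
          exact ⟨n' + 2 * c ^ 2 + 4 * c ^ 2 * n, by ring⟩
        have : (4 : ℤ) ∣ (N2 : ℤ) := by omega
        exact_mod_cast this
      have htb : tb b' = tb (2 * c) := by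
        have h6 : 3 * b' = 2 * c + 8 * (c * n) := by
          rw [← hb']
          push_cast
          ring
        have h7 : b' % 4 = (2 * c) % 4 := by
          generalize c * (n : ℤ) = x at h6
          omega
        unfold tb
        rw [h7]
      rw [hPC (4 * n) N2 b' D' hs h5 h4N hD' hDD', locE_eq h1 b' D' hD', lrE9 _ htb D' hD',
        fact9_3 D' hD']
      push_cast
      ring
    · have hz : cp3 n1 b n2 = 0 := by
        refine cp3_zero n1 b n2 hb ?_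
        rw [← hDD]
        intro h
        exact h9 (by exact_mod_cast h)
      have hk : D.factorization 3 = 1 := by
        have k1 : 1 ≤ D.factorization 3 :=
          (Nat.Prime.dvd_iff_one_le_factorization (by norm_num) hD.ne').1 h3D
        have k2 : ¬ 2 ≤ D.factorization 3 := by
          intro h
          have := (Nat.Prime.pow_dvd_iff_le_factorization (p := 3) (by norm_num) hD.ne').2 h
          norm_num at this
          exact h9 this
        omega
      rw [hz, hk]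
      push_cast
      ring
  · have e1 : locE n1 b D = 0 := by
      unfold locE
      rw [tb_odd hb2]
      simp
    have e2 : lrE n1 b D = 0 := by
      unfold lrE
      rw [tb_odd hb2]
      simp
    have e3 := cp3_le n1 b n2
    rw [e1] at hcp
    rw [e2]
    omega

/-- the sum over the inner products -/
theorem AA_gen {n n2 N : ℕ} (L : ℤ → ℕ → ℤ)
    (hC : ∀ (b : ℤ) (D : ℕ), ¬ (3 : ℤ) ∣ b → 0 < D → (D : ℤ) = n * n2 - b ^ 2 →
      (cp n b n2 : ℤ) + cp3 n b n2 = 12 * L b D)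
    (hz : ∀ (b : ℤ) (D : ℕ), ¬ (2 : ℤ) ∣ N - b → L b D = 0)
    (hN : n * n2 = N ^ 2) (hN3 : ¬ 3 ∣ N) (hN5 : ¬ 5 ∣ N) :
    ∑ b ∈ (Ioo (-((N : ℤ) + 1)) ((N : ℤ) + 1)).filter
      (fun b : ℤ => b % 3 = (-(N : ℤ)) % 3 ∧ b % 5 = (N : ℤ) % 5),
      ((cp n b n2 : ℤ) + cp3 n b n2) =
    12 * ∑ T ∈ (range N).filter (fun T => 5 ∣ T ∧ 3 ∣ N - T),
      L ((N : ℤ) - 2 * T) (4 * (N - T) * T) := by
  have hNN : (n : ℤ) * n2 = (N : ℤ) ^ 2 := by exact_mod_cast hN
  have h1 : ∀ b ∈ (Ioo (-((N : ℤ) + 1)) ((N : ℤ) + 1)).filter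
      (fun b : ℤ => b % 3 = (-(N : ℤ)) % 3 ∧ b % 5 = (N : ℤ) % 5),
      ((cp n b n2 : ℤ) + cp3 n b n2) = 12 * L b ((N : ℤ) ^ 2 - b ^ 2).toNat := by
    intro b hb
    obtain ⟨h6, h7, h8⟩ := Finset.mem_filter.1 hb
    obtain ⟨h9, h10⟩ := Finset.mem_Ioo.1 h6
    have h11 : b ≠ N := by
      rintro rfl
      omega
    have h12 : b ≠ -N := by
      rintro rfl
      omega
    have h13 : 0 < (N : ℤ) ^ 2 - b ^ 2 := by
      have e : (N : ℤ) ^ 2 - b ^ 2 = (N - b) * (N + b) := by ring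
      rw [e]
      exact mul_pos (by omega) (by omega)
    refine hC b _ (by omega) (by omega) ?_
    rw [Int.toNat_of_nonneg h13.le, hNN]
  rw [Finset.sum_congr rfl h1, ← Finset.mul_sum]
  congr 1
  rw [← Finset.sum_filter_add_sum_filter_not _ (fun b : ℤ => (2 : ℤ) ∣ N - b)]
  have h2 : ∑ b ∈ ((Ioo (-((N : ℤ) + 1)) ((N : ℤ) + 1)).filter
      (fun b : ℤ => b % 3 = (-(N : ℤ)) % 3 ∧ b % 5 = (N : ℤ) % 5)).filter
      (fun b : ℤ => ¬ (2 : ℤ) ∣ N - b), L b ((N : ℤ) ^ 2 - b ^ 2).toNat = 0 :=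
    Finset.sum_eq_zero fun b hb => hz b _ (Finset.mem_filter.1 hb).2
  rw [h2, add_zero]
  refine Finset.sum_bij' (fun b _ => (((N : ℤ) - b) / 2).toNat) (fun T _ => (N : ℤ) - 2 * T) ?_ ?_ ?_ ?_ ?_
  · intro b hb
    obtain ⟨h6, h7⟩ := Finset.mem_filter.1 hb
    obtain ⟨h8, h11, h12⟩ := Finset.mem_filter.1 h6
    obtain ⟨h9, h10⟩ := Finset.mem_Ioo.1 h8
    rw [Finset.mem_filter, Finset.mem_range]
    have h13 : b ≠ -N := by
      rintro rfl
      omega
    obtain ⟨c, hc⟩ := h7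
    have h14 : ((N : ℤ) - b) / 2 = c := by omega
    rw [h14]
    refine ⟨by omega, ?_, ?_⟩
    · omega
    · omega
  · intro T hT
    rw [Finset.mem_filter, Finset.mem_range] at hT
    obtain ⟨h6, h7, h8⟩ := hT
    rw [Finset.mem_filter, Finset.mem_filter, Finset.mem_Ioo]
    refine ⟨⟨⟨by omega, by omega⟩, by omega, by omega⟩, by omega⟩
  · intro b hb
    obtain ⟨h6, h7⟩ := Finset.mem_filter.1 hb
    obtain ⟨h9, h10⟩ := Finset.mem_Ioo.1 (Finset.mem_filter.1 h6).1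
    omega
  · intro T hT
    omega
  · intro b hb
    obtain ⟨h6, h7⟩ := Finset.mem_filter.1 hb
    obtain ⟨h8, h11, h12⟩ := Finset.mem_filter.1 h6
    obtain ⟨h9, h10⟩ := Finset.mem_Ioo.1 h8
    obtain ⟨c, hc⟩ := h7
    have h14 : ((N : ℤ) - b) / 2 = c := by omega
    rw [h14]
    have hc0 : 0 ≤ c := by omega
    obtain ⟨T, rfl⟩ := Int.eq_ofNat_of_zero_le hc0
    have h15 : T ≤ N := by omega
    rw [Int.toNat_natCast]
    have h17 : b = N - 2 * T := by linarith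
    have h16 : (N : ℤ) ^ 2 - b ^ 2 = ((4 * (N - T) * T : ℕ) : ℤ) := by
      push_cast [Nat.cast_sub h15]
      rw [h17]
      ring
    rw [h16, Int.toNat_natCast, ← h17]

theorem tb_neg (b : ℤ) : tb (-b) = tb b := by
  unfold tb
  have h1 : (-b) % 4 = 0 ↔ b % 4 = 0 := by omega
  have h2 : (-b) % 4 = 2 ↔ b % 4 = 2 := by omega
  simp only [h1, h2]

theorem loc3E_neg (n1 : ℕ) (b : ℤ) (D : ℕ) : loc3E n1 (-b) D = loc3E n1 b D := by
  unfold loc3E
  rw [tb_neg]

theorem AAe_eq (n N : ℕ) : ∑ T ∈ (range N).filter (fun T => 5 ∣ T ∧ 3 ∣ N - T),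
    loc3E n ((N : ℤ) - 2 * T) (4 * (N - T) * T) = AAe n N := by
  unfold AAe
  refine Finset.sum_congr rfl fun T hT => ?_
  have h1 := Finset.mem_range.1 (Finset.mem_filter.1 hT).1
  rw [← loc3E_neg]
  congr 1
  push_cast [Nat.cast_sub h1.le]
  ring

theorem loc3E_odd (n : ℕ) {b : ℤ} (D : ℕ) (hb : ¬ (2 : ℤ) ∣ b) : loc3E n b D = 0 := by
  unfold loc3E
  rw [tb_odd hb]
  simp

/-- **BIL1E** -/
theorem t_BIL1E (hR : S_REL22) (hC : S_CP3E) : S_BIL1E := by
  rintro n ⟨hs, h3, h5'⟩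
  have h4 : 4 ∣ n := by
    obtain ⟨m, rfl, -⟩ := hs
    exact dvd_mul_right 4 m
  have h5 : ¬ 5 ∣ n := by omega
  have h1 := AA_gen (n := n) (n2 := n) (N := n) (loc3E n)
    (fun b D hb hD hDD => hC n n b D hs h5' h3 h4 h3 hb hD hDD)
    (fun b D hb => loc3E_odd n D (by omega)) (sq n).symm (by omega) h5
  have h2 := hR n n h3 h3 h5 h5 ((-(n : ℤ)) % 3) ((n : ℤ) % 5) (by omega) (by omega) (by omega) (by
    have e : ((n : ℤ) % 5) ^ 2 - (n : ℤ) * n = -(5 * ((n : ℤ) / 5)) * ((n : ℤ) % 5 + n) := by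
      have := Int.emod_add_mul_ediv (n : ℤ) 5
      have e2 : 5 * ((n : ℤ) / 5) = n - (n : ℤ) % 5 := by linarith
      rw [e2]
      ring
    rw [e]
    exact ⟨-((n : ℤ) / 5) * ((n : ℤ) % 5 + n), by ring⟩) (n + 1) (by nlinarith) (by omega)
  rw [h1, AAe_eq] at h2
  rw [sq, sq]
  linarith

/-- **BIL2E** -/
theorem t_BIL2E (hR : S_REL22) (hC : S_CP3E) : S_BIL2E := by
  rintro n ⟨hs, h3, h5'⟩
  have h4 : 4 ∣ n := by
    obtain ⟨m, rfl, -⟩ := hs
    exact dvd_mul_right 4 m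
  have h5 : ¬ 5 ∣ n := by omega
  have h1 := AA_gen (n := n) (n2 := 4 * n) (N := 2 * n) (loc3E n)
    (fun b D hb hD hDD => hC n (4 * n) b D hs h5' h3 (dvd_mul_right 4 n) (by omega) hb hD hDD)
    (fun b D hb => loc3E_odd n D (by omega)) (by ring) (by omega) (by omega)
  have h2 := hR n (4 * n) h3 (by omega) h5 (by omega) ((-((2 * n : ℕ) : ℤ)) % 3) (((2 * n : ℕ) : ℤ) % 5)
    (by omega) (by omega) (by omega) (by
    have e : (((2 * n : ℕ) : ℤ) % 5) ^ 2 - (n : ℤ) * ((4 * n : ℕ) : ℤ) =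
        -(5 * (((2 * n : ℕ) : ℤ) / 5)) * (((2 * n : ℕ) : ℤ) % 5 + ((2 * n : ℕ) : ℤ)) := by
      have := Int.emod_add_mul_ediv ((2 * n : ℕ) : ℤ) 5
      have e2 : 5 * (((2 * n : ℕ) : ℤ) / 5) = ((2 * n : ℕ) : ℤ) - ((2 * n : ℕ) : ℤ) % 5 := by linarith
      rw [e2]
      push_cast
      ring
    rw [e]
    exact ⟨-(((2 * n : ℕ) : ℤ) / 5) * (((2 * n : ℕ) : ℤ) % 5 + ((2 * n : ℕ) : ℤ)), by ring⟩)
    (((2 * n : ℕ) : ℤ) + 1) (by push_cast; nlinarith) (by omega)
  rw [h1, AAe_eq] at h2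
  have e : ((4 * n : ℕ) : ℤ) = 4 * (n : ℤ) := by push_cast; rfl
  rw [e] at h2
  linarith

end Pool.Agent.N973.P15
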