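import Pool.Agent.N973.P15.DG

/-!
# P15: the assembly of the diagonal identity for the classes with `3 ∣ n`
-/

set_option autoImplicit false

namespace Pool.Agent.N973.P15

open Finset
open Pool.Agent.N969.P15
open Pool.Agent.Z700 (hh fac)

/-- the sum over the cusps, odd discriminants -/
theorem WXA_odd (h1 : S_C1B) {n N : ℕ} (hs : Squarefree n) (h4 : n % 4 = 3)
    (hN : N = n ∨ N = 2 * n) : WXA (fun u => jacobiSym u n) n N =
      ∑ T ∈ (range N).filter (fun T => 5 ∣ T), WWA n (N - T) T := by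
  unfold WXA WWA
  refine Finset.sum_congr rfl fun T hT => ?_
  rw [mem_filter, mem_range] at hT
  refine Finset.sum_congr rfl fun a ha => ?_
  refine Finset.sum_congr rfl fun a' ha' => ?_
  have h3 : a ∣ N - T := Nat.dvd_of_mem_divisors (Finset.mem_filter.1 ha).1
  have h5 : a' ∣ T := Nat.dvd_of_mem_divisors (Finset.mem_filter.1 ha').1
  refine h1 n hs h4 N hN a a' (T / a') ((N - T) / a) ?_
  rw [Nat.mul_div_cancel' h3, Nat.mul_div_cancel' h5]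
  omega

/-- the sum over the cusps, even discriminants -/
theorem WXA_even (h1 : S_C1BE) {n N : ℕ} (hs : Ev n) (hN : N = n ∨ N = 2 * n) :
    WXA (chE n) n N = ∑ T ∈ (range N).filter (fun T => 5 ∣ T), WWAe n (N - T) T := by
  unfold WXA WWAe
  refine Finset.sum_congr rfl fun T hT => ?_
  rw [mem_filter, mem_range] at hT
  refine Finset.sum_congr rfl fun a ha => ?_
  refine Finset.sum_congr rfl fun a' ha' => ?_
  have hT0 : 0 < T := by
    rcases Nat.eq_zero_or_pos T with rfl | h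
    · simp at ha'
    · exact h
  have h3 : a ∣ N - T := Nat.dvd_of_mem_divisors (Finset.mem_filter.1 ha).1
  have h5 : a' ∣ T := Nat.dvd_of_mem_divisors (Finset.mem_filter.1 ha').1
  have p1 : 0 < a := Nat.pos_of_dvd_of_pos h3 (by omega)
  have p2 : 0 < a' := Nat.pos_of_dvd_of_pos h5 hT0
  refine h1 n hs N hN a a' (T / a') ((N - T) / a) p1 p2 (Nat.div_pos (Nat.le_of_dvd hT0 h5) p2)
    (Nat.div_pos (Nat.le_of_dvd (by omega) h3) p1) ?_
  rw [Nat.mul_div_cancel' h3, Nat.mul_div_cancel' h5]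
  omega

theorem psp3_zero {a a' Y X : ℕ} (ha : ¬ 3 ∣ a) (hX : 3 ∣ X) : psp 3 a a' Y X = 0 := by
  unfold psp
  rw [if_neg (fun h => ha h.1)]
  obtain ⟨k, rfl⟩ := hX
  have : (-((a * (3 * k) : ℕ) : ℤ)) % ((3 : ℕ) : ℤ) = 0 := by
    push_cast
    have e : -((a : ℤ) * (3 * k)) = 3 * (-(a * k)) := by ring
    rw [e, Int.mul_emod_right]
  rw [jacobiSym.mod_left, this]
  norm_num

theorem dvdX {T a' : ℕ} (h : a' ∣ T) (h3 : 3 ∣ T) (ha' : ¬ 3 ∣ a') : 3 ∣ T / a' := by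
  obtain ⟨k, rfl⟩ := h
  rcases Nat.eq_zero_or_pos a' with rfl | hp
  · simp at ha'
  · rw [Nat.mul_div_cancel_left _ hp]
    exact ((Nat.Prime.dvd_mul Nat.prime_three).1 h3).resolve_left ha'

theorem WWA_zero {n S T : ℕ} (hn : n ≠ 0) (h3 : 3 ∣ n) (hT : 3 ∣ T) : WWA n S T = 0 := by
  unfold WWA
  refine Finset.sum_eq_zero fun a ha => Finset.sum_eq_zero fun a' ha' => ?_
  rw [Finset.mem_filter] at ha ha'
  refine Finset.prod_eq_zero (i := 3) (Nat.mem_primeFactors.2 ⟨Nat.prime_three, h3, hn⟩) ?_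
  exact psp3_zero ha.2 (dvdX (Nat.dvd_of_mem_divisors ha'.1) hT ha'.2.2)

theorem WWAe_zero {n S T : ℕ} (hn : n ≠ 0) (h3 : 3 ∣ n) (hT : 3 ∣ T) : WWAe n S T = 0 := by
  unfold WWAe
  refine Finset.sum_eq_zero fun a ha => Finset.sum_eq_zero fun a' ha' => ?_
  rw [Finset.mem_filter] at ha ha'
  have h := Finset.prod_eq_zero (s := n.primeFactors.erase 2)
    (f := fun p => psp p a a' (S / a) (T / a')) (i := 3) (Finset.mem_erase.2 ⟨by norm_num,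
    Nat.mem_primeFactors.2 ⟨Nat.prime_three, h3, hn⟩⟩) (psp3_zero ha.2
      (dvdX (Nat.dvd_of_mem_divisors ha'.1) hT ha'.2.2))
  rw [h, mul_zero]

/-- the sums over `T`, `3 ∣ n` -/
theorem sum_n3 {N : ℕ} (W : ℕ → ℤ) (hW : ∀ T, 3 ∣ T → W T = 0) :
    ∑ T ∈ (range N).filter (fun T => 5 ∣ T), W T =
      ∑ T ∈ (range N).filter (fun T => 5 ∣ T ∧ ¬ 3 ∣ T), W T := by
  symm
  refine Finset.sum_subset ?_ ?_
  · intro T hT
    rw [Finset.mem_filter] at hT ⊢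
    exact ⟨hT.1, hT.2.1⟩
  · intro T hT hT'
    rw [Finset.mem_filter] at hT hT'
    apply hW
    by_contra h
    exact hT' ⟨hT.1, hT.2, h⟩

/-- doubling in the sum over `T` -/
theorem sum_dbl {n : ℕ} (e : ℤ) (L : ℕ → ℤ) :
    ∑ T ∈ (range (2 * n)).filter (fun T => 5 ∣ T ∧ ¬ 3 ∣ T),
      (if 2 ∣ T then e * L ((2 * n - T) * T) else 0) =
    e * ∑ T ∈ (range n).filter (fun T => 5 ∣ T ∧ ¬ 3 ∣ T), L (4 * (n - T) * T) := by
  rw [← Finset.sum_filter, Finset.mul_sum]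
  symm
  refine Finset.sum_nbij (fun T : ℕ => 2 * T) ?_ ?_ ?_ ?_
  · intro T hT
    rw [mem_filter, mem_range] at hT
    rw [mem_filter, mem_filter, mem_range]
    omega
  · intro T _ T' _ h
    have h' : 2 * T = 2 * T' := h
    omega
  · intro T hT
    rw [mem_coe, mem_filter, mem_filter, mem_range] at hT
    obtain ⟨⟨b1, b2, b3⟩, k, hk⟩ := hT
    refine ⟨k, ?_, hk.symm⟩
    rw [mem_coe, mem_filter, mem_range]
    omega
  · intro T hT
    rw [mem_filter, mem_range] at hT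
    have h6 : 4 * (n - T) * T = (2 * n - 2 * T) * (2 * T) := by
      have h7 : 2 * n - 2 * T = 2 * (n - T) := by omega
      rw [h7]
      ring
    rw [h6]

theorem loc_odd (n D : ℕ) (h : ¬ 2 ∣ D) : loc n D = 0 := by
  unfold loc tw
  rw [Nat.factorization_eq_zero_of_not_dvd h]
  simp

theorem odd_D {n n2 N : ℕ} (hN : n * n2 = N ^ 2) (b : ℤ) (D : ℕ) (hb : ¬ (2 : ℤ) ∣ N - b)
    (hDD : (D : ℤ) = n * n2 - b ^ 2) : ¬ 2 ∣ D := by
  intro h
  have h1 : (2 : ℤ) ∣ (D : ℤ) := by exact_mod_cast h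
  have hNN : (n : ℤ) * n2 = (N : ℤ) ^ 2 := by exact_mod_cast hN
  rw [hDD, hNN] at h1
  have e : (N : ℤ) ^ 2 - b ^ 2 = (N - b) * (N + b) := by ring
  rw [e] at h1
  rcases Int.Prime.dvd_mul' (p := 2) (by norm_num) h1 with h | h
  · push_cast at h; omega
  · push_cast at h; omega

/-- **DIAG3** -/
theorem t_DIAG3 (h1b : S_C1B) (h2a : S_C23A) (h2b : S_C23B) (hPC : S_PC) (hR : S_REL33)
    (hHE : S_HE3) : S_DIAG3 := by
  intro n hn
  obtain ⟨hs, h4, h3, h5⟩ := hn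
  have hn0 : n ≠ 0 := hs.ne_zero
  have h9 : ¬ 9 ∣ n := by
    intro h
    have := hs 3 (by exact h)
    rw [Nat.isUnit_iff] at this
    omega
  have h5n : ¬ 5 ∣ n := by omega
  have hC : ∀ n2 : ℕ, ∀ (b : ℤ) (D : ℕ), ¬ (3 : ℤ) ∣ b → 0 < D → (D : ℤ) = n * n2 - b ^ 2 →
      (cp n b n2 : ℤ) = 6 * (fun (_ : ℤ) (D : ℕ) => loc n D) b D :=
    fun n2 b D _ hD hDD => hPC n n2 b D hs h4 h5n hD hDD
  have hz : ∀ n2 N : ℕ, n * n2 = N ^ 2 → ∀ (b : ℤ) (D : ℕ), ¬ (2 : ℤ) ∣ N - b → 0 < D →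
      (D : ℤ) = n * n2 - b ^ 2 → (fun (_ : ℤ) (D : ℕ) => loc n D) b D = 0 :=
    fun n2 N hN b D hb _ hDD => loc_odd n D (odd_D hN b D hb hDD)
  have k1 := BIL_35 hR 6 (fun _ D => loc n D) (hC n) (hz n n (sq n).symm) (sq n).symm h3 h5n h3 h9
    h3 h9
  have k2 := BIL_35 hR (n2 := 4 * n) (N := 2 * n) 6 (fun _ D => loc n D) (hC (4 * n))
    (hz (4 * n) (2 * n) (by ring)) (by ring) (by omega) (by omega) h3 h9 (by omega) (by omega)
  obtain ⟨k3, k4⟩ := hHE n h4 h3 h9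
  have e4 : ((4 * n : ℕ) : ℤ) = 4 * (n : ℤ) := by push_cast; rfl
  rw [e4] at k2
  have k5 : cc (4 * n) = -(1 + ep2 n) * cc n := by
    unfold cc
    have m1 : (4 * (n : ℤ)) % 3 = 0 := by omega
    have m2 : (n : ℤ) % 3 = 0 := by omega
    rw [if_pos m1, if_pos m2, k3, k4]
    ring
  rw [k3, k5] at k2
  have w1 : WXA (fun u => jacobiSym u n) n n =
      -∑ T ∈ (range n).filter (fun T => 5 ∣ T ∧ ¬ 3 ∣ T), loc n (4 * (n - T) * T) := by
    rw [WXA_odd h1b hs h4 (Or.inl rfl), sum_n3 _ (fun T hT => WWA_zero hn0 h3 hT),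
      ← Finset.sum_neg_distrib]
    refine Finset.sum_congr rfl fun T hT => ?_
    rw [mem_filter, mem_range] at hT
    exact h2a n ⟨hs, h4, h3, h5⟩ T (Nat.pos_of_ne_zero (by rintro rfl; omega)) hT.1 hT.2.1 hT.2.2
  have w2 : WXA (fun u => jacobiSym u n) n (2 * n) =
      -(∑ T ∈ (range (2 * n)).filter (fun T => 5 ∣ T ∧ ¬ 3 ∣ T), loc n (4 * (2 * n - T) * T) +
        ep2 n * ∑ T ∈ (range n).filter (fun T => 5 ∣ T ∧ ¬ 3 ∣ T), loc n (4 * (n - T) * T)) := by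
    rw [WXA_odd h1b hs h4 (Or.inr rfl), sum_n3 _ (fun T hT => WWA_zero hn0 h3 hT),
      ← sum_dbl, ← Finset.sum_add_distrib, ← Finset.sum_neg_distrib]
    refine Finset.sum_congr rfl fun T hT => ?_
    rw [mem_filter, mem_range] at hT
    exact h2b n ⟨hs, h4, h3, h5⟩ T (Nat.pos_of_ne_zero (by rintro rfl; omega)) hT.1 hT.2.1 hT.2.2
  rw [CA.t_C1AA n (by omega) (fun u => jacobiSym u n) (fun u => C.jac_odd h4 u), w1, w2]
  generalize (∑ T ∈ (range n).filter (fun T => 5 ∣ T ∧ ¬ 3 ∣ T), loc n (4 * (n - T) * T)) = S1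
    at k1 ⊢
  generalize (∑ T ∈ (range (2 * n)).filter (fun T => 5 ∣ T ∧ ¬ 3 ∣ T),
    loc n (4 * (2 * n - T) * T)) = S2 at k2 ⊢
  have k7 : 4 * (18 * (2 * (-(S2 + ep2 n * S1) - 3 * -S1))) = 4 * -cc n ^ 2 := by
    linear_combination (3 - ep2 n) * k1 - k2
  linarith

/-- **DIAG3E** -/
theorem t_DIAG3E (h1b : S_C1BE) (h2 : S_C23E) (hPC : S_PCE) (hR : S_REL33)
    (hHE : S_HE3E) : S_DIAG3E := by
  intro n hn
  obtain ⟨hev, h3, h5⟩ := hn
  obtain ⟨m, rfl, hs, hm⟩ := id hev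
  have hn0 : 4 * m ≠ 0 := by
    have := hs.ne_zero
    omega
  have h3m : 3 ∣ m := by omega
  have h9m : ¬ 9 ∣ m := by
    intro h
    have := hs 3 (by exact h)
    rw [Nat.isUnit_iff] at this
    omega
  have h9 : ¬ 9 ∣ 4 * m := by omega
  have h5n : ¬ 5 ∣ 4 * m := by omega
  have hC : ∀ n2 : ℕ, 4 ∣ n2 → ∀ (b : ℤ) (D : ℕ), ¬ (3 : ℤ) ∣ b → 0 < D →
      (D : ℤ) = (4 * m : ℕ) * n2 - b ^ 2 →
      (cp (4 * m : ℕ) b n2 : ℤ) = 6 * locE (4 * m) b D :=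
    fun n2 h4 b D _ hD hDD => hPC (4 * m) n2 b D hev h5 h4 hD hDD
  have hz : ∀ n2 N : ℕ, 2 ∣ N → ∀ (b : ℤ) (D : ℕ), ¬ (2 : ℤ) ∣ N - b → 0 < D →
      (D : ℤ) = (4 * m : ℕ) * n2 - b ^ 2 → locE (4 * m) b D = 0 := by
    intro n2 N hN b D hb _ _
    unfold locE
    rw [tb_odd (by omega)]
    simp
  have k1 := BIL_35 hR 6 (locE (4 * m)) (hC (4 * m) (dvd_mul_right 4 m))
    (hz (4 * m) (4 * m) (by omega)) (sq (4 * m)).symm h3 h5n h3 h9 h3 h9
  have k2 := BIL_35 hR (n2 := 4 * (4 * m)) (N := 2 * (4 * m)) 6 (locE (4 * m))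
    (hC (4 * (4 * m)) (dvd_mul_right 4 _)) (hz (4 * (4 * m)) (2 * (4 * m)) (by omega)) (by ring)
    (by omega) (by omega) h3 h9 (by omega) (by omega)
  obtain ⟨k3, k4⟩ := hHE m hm h3m h9m
  have e16 : ((4 * (4 * m) : ℕ) : ℤ) = 16 * (m : ℤ) := by push_cast; ring
  have e4 : ((4 * m : ℕ) : ℤ) = 4 * (m : ℤ) := by push_cast; ring
  have k5 : cc (16 * m) = -cc (4 * m) := by
    unfold cc
    have m1 : (16 * (m : ℤ)) % 3 = 0 := by omega
    have m2 : (4 * (m : ℤ)) % 3 = 0 := by omega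
    rw [if_pos m1, if_pos m2, k3, k4]
    ring
  rw [e16, e4, k3, k5] at k2
  rw [e4] at k1
  have w : ∀ N : ℕ, (N = 4 * m ∨ N = 2 * (4 * m)) → WXA (chE (4 * m)) (4 * m) N =
      -∑ T ∈ (range N).filter (fun T => 5 ∣ T ∧ ¬ 3 ∣ T),
        locE (4 * m) ((N : ℤ) - 2 * T) (4 * (N - T) * T) := by
    intro N hN
    rw [WXA_even h1b hev hN, sum_n3 _ (fun T hT => WWAe_zero hn0 h3 hT), ← Finset.sum_neg_distrib]
    refine Finset.sum_congr rfl fun T hT => ?_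
    rw [mem_filter, mem_range] at hT
    rw [h2 (4 * m) ⟨hev, h3, h5⟩ N hN T (Nat.pos_of_ne_zero (by rintro rfl; omega)) hT.1 hT.2.1
      hT.2.2]
    have hb : tb ((T : ℤ) - ((N - T : ℕ) : ℤ)) = tb ((N : ℤ) - 2 * T) := by
      have e : (T : ℤ) - ((N - T : ℕ) : ℤ) = -((N : ℤ) - 2 * T) := by
        rw [Nat.cast_sub hT.1.le]
        ring
      rw [e]
      unfold tb
      have q1 : (-((N : ℤ) - 2 * T)) % 4 = 0 ↔ ((N : ℤ) - 2 * T) % 4 = 0 := by omega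
      have q2 : (-((N : ℤ) - 2 * T)) % 4 = 2 ↔ ((N : ℤ) - 2 * T) % 4 = 2 := by omega
      simp only [q1, q2]
    unfold locE
    rw [hb]
  rw [CA.t_C1AA (4 * m) (by omega) (chE (4 * m)) (fun u => C.chE_odd hev u),
    w _ (Or.inl rfl), w _ (Or.inr rfl), e4]
  have e8 : ((2 * (4 * m) : ℕ) : ℤ) = 2 * (4 * (m : ℤ)) := by push_cast; ring
  rw [e8] at k2 ⊢
  generalize (∑ T ∈ (range (4 * m)).filter (fun T => 5 ∣ T ∧ ¬ 3 ∣ T),
    locE (4 * m) (4 * (m : ℤ) - 2 * T) (4 * (4 * m - T) * T)) = S1 at k1 ⊢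
  generalize (∑ T ∈ (range (2 * (4 * m))).filter (fun T => 5 ∣ T ∧ ¬ 3 ∣ T),
    locE (4 * m) (2 * (4 * (m : ℤ)) - 2 * T) (4 * (2 * (4 * m) - T) * T)) = S2 at k2 ⊢
  have k7 : 4 * (18 * (2 * (-S2 - 3 * -S1))) = 4 * -cc (4 * m) ^ 2 := by
    linear_combination 3 * k1 - k2
  linarith

end Pool.Agent.N973.P15
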