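import Pool.Agent.N973.P15.SymCoreA
import Pool.Agent.N973.P15.C1AA
import Pool.Agent.N975.Sym

/-!
# The odd modular symbol of level `15` on the cusps with denominator divisible by `3`

Adapted from `N975/Sym.lean`.
-/

set_option autoImplicit false

open Finset

namespace Pool.Agent.N973.P15.SA

open Pool.Agent.N974.MF (Symb15)
open Pool.Agent.N973.P15.CA (Om Cd FA_eq G_flip G2_eq)

/-- the value of the counting function in terms of factorizations -/
theorem FA_val (n : ℕ) (hn : 0 < n) (x : ℤ) : FA x n =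
    ((((Om (2 * n)).filter (Cd n (2 * n) x)).card : ℤ) - 3 * ((Om n).filter (Cd n n x)).card) -
    ((((Om (2 * n)).filter (Cd n (2 * n) (n - x))).card : ℤ) -
      3 * ((Om n).filter (Cd n n (n - x))).card) := by
  rw [FA_eq _ _ (by exact_mod_cast hn), G_flip _ _ (by exact_mod_cast hn), G2_eq n hn, G2_eq n hn]
  ring

theorem FA13 : FA 1 3 = -1 := by
  have h := FA_val 3 (by norm_num) 1
  rw [show ((3 : ℕ) : ℤ) = 3 from rfl] at h
  rw [h]
  decide +kernel

theorem FA115 : FA 1 15 = 0 := by
  have h := FA_val 15 (by norm_num) 1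
  rw [show ((15 : ℕ) : ℤ) = 15 from rfl] at h
  rw [h]
  decide +kernel

theorem FA215 : FA 2 15 = 0 := by
  have h := FA_val 15 (by norm_num) 2
  rw [show ((15 : ℕ) : ℤ) = 15 from rfl] at h
  rw [h]
  decide +kernel

theorem FA415 : FA 4 15 = -2 := by
  have h := FA_val 15 (by norm_num) 4
  rw [show ((15 : ℕ) : ℤ) = 15 from rfl] at h
  rw [h]
  decide +kernel

theorem FA715 : FA 7 15 = 0 := by
  have h := FA_val 15 (by norm_num) 7
  rw [show ((15 : ℕ) : ℤ) = 15 from rfl] at h
  rw [h]
  decide +kernel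

theorem FA1130 : FA 11 30 = -2 := by
  have h := FA_val 30 (by norm_num) 11
  rw [show ((30 : ℕ) : ℤ) = 30 from rfl] at h
  rw [h]
  decide +kernel

variable {s : ℚ → ℤ} {a : ℕ → ℤ}

theorem s18 (H : Symb15 s a) : s (1 / 8) = 0 := by
  have h1 := H.aff (A := -8) (B := 1) (C := 1) (D := -2) (by norm_num) (1 / 8) (by norm_num)
  have h2 := H.neg (1 / 2)
  have h3 := H.s12
  have h4 := H.s0
  norm_num at h1 h2 h3 h4
  linarith

theorem s115 (H : Symb15 s a) : s (1 / 15) = 0 := by
  have h1 := H.aff_inf (A := 1) (B := 0) (C := 1) (D := 1) (by norm_num) (by norm_num)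
  have h4 := H.s0
  norm_num at h1 h4
  linarith

theorem s215 (H : Symb15 s a) : s (2 / 15) = 0 := by
  have h1 := H.aff_inf (A := 2) (B := 1) (C := 1) (D := 8) (by norm_num) (by norm_num)
  have h4 := s18 H
  norm_num at h1 h4
  linarith

theorem s415 (H : Symb15 s a) : s (4 / 15) = 2 * s (1 / 3) := by
  have h1 := H.aff_inf (A := 4) (B := 1) (C := 1) (D := 4) (by norm_num) (by norm_num)
  have h4 := H.s14
  norm_num at h1 h4
  linarith

theorem s715 (H : Symb15 s a) : s (7 / 15) = 0 := by
  have h1 := H.aff_inf (A := 7) (B := -1) (C := 1) (D := -2) (by norm_num) (by norm_num)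
  have h4 := H.s12
  norm_num at h1 h4
  linarith

theorem s1130 (H : Symb15 s a) : s (11 / 30) = 2 * s (1 / 3) := by
  have h1 := H.aff_inf (A := 11) (B := 4) (C := 2) (D := 11) (by norm_num) (by norm_num)
  have h4 := H.s411
  norm_num at h1 h4
  linarith

/-- the symbol is given by the counting function -/
def Gd (s : ℚ → ℤ) (x M : ℤ) : Prop := 2 * s ((x : ℚ) / M) = s (1 / 3) * G x M

theorem per_nat (H : Symb15 s a) (x : ℚ) (n : ℕ) : s (x + n) = s x :=
  Pool.Agent.N975.Sym.per_nat H.per x n

theorem per_int (H : Symb15 s a) (x : ℚ) (n : ℤ) : s (x + n) = s x :=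
  Pool.Agent.N975.Sym.per_int H.per x n

theorem Gd.neg_neg {x M : ℤ} (h : Gd s x M) : Gd s (-x) (-M) := by
  unfold Gd at h ⊢
  rw [G_neg_neg, ← h]
  push_cast
  rw [neg_div_neg_eq]

theorem Gd.neg (H : Symb15 s a) {x M : ℤ} (h : Gd s x M) : Gd s (-x) M := by
  unfold Gd at h ⊢
  rw [G_neg]
  push_cast
  rw [neg_div, H.neg]
  linear_combination -h

theorem Gd.add (H : Symb15 s a) {x M : ℤ} (hM : M ≠ 0) (m : ℤ) (h : Gd s x M) :
    Gd s (x + m * M) M := by
  unfold Gd at h ⊢
  have hMq : (M : ℚ) ≠ 0 := by exact_mod_cast hM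
  have e : (((x + m * M : ℤ) : ℚ) / M) = (x : ℚ) / M + m := by
    push_cast
    field_simp
  rw [e, per_int H, G_add, ← h]

theorem Gd.of_coc (H : Symb15 s a) {A B D c : ℤ} (hc : c ≠ 0) (hdet : A * D - B * (15 * c) = 1)
    {x M : ℤ} (hM : M ≠ 0) (h3 : (3 : ℤ) ∣ M) (hx : ¬ (3 : ℤ) ∣ x)
    (hK : 15 * c * x + D * M ≠ 0) (h1 : Gd s (A * x + B * M) (15 * c * x + D * M))
    (h2 : Gd s A (15 * c)) : Gd s x M := by
  unfold Gd at h1 h2 ⊢
  have e1 := G_coc (a := A) (b := B) (c := 15 * c) (d := D) hdet ⟨c, rfl⟩ (NV_3 h3 hx)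
  have e2 := H.aff' hdet hM hK
  have e3 := H.aff_inf hdet hc
  rw [e1, e2] at h1
  push_cast at h2
  rw [e3] at h2
  linear_combination h1 - h2

theorem Gd_of {x M : ℤ} (h3 : (3 : ℤ) ∣ M) (hx : ¬ (3 : ℤ) ∣ x)
    (h : s ((x : ℚ) / M) = -s (1 / 3) * FA x M) : Gd s x M := by
  unfold Gd
  rw [h, G_eq (NV_3 h3 hx)]
  ring

theorem Gd13 : Gd s 1 3 := by
  refine Gd_of (by norm_num) (by norm_num) ?_
  rw [FA13]
  norm_num

theorem Gd115 (H : Symb15 s a) : Gd s 1 15 := by
  refine Gd_of (by norm_num) (by norm_num) ?_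
  have h1 := s115 H
  rw [FA115]
  norm_num at h1 ⊢
  exact h1

theorem Gd215 (H : Symb15 s a) : Gd s 2 15 := by
  refine Gd_of (by norm_num) (by norm_num) ?_
  have h1 := s215 H
  rw [FA215]
  norm_num at h1 ⊢
  exact h1

theorem Gd415 (H : Symb15 s a) : Gd s 4 15 := by
  refine Gd_of (by norm_num) (by norm_num) ?_
  have h1 := s415 H
  rw [FA415]
  norm_num at h1 ⊢
  linarith

theorem Gd715 (H : Symb15 s a) : Gd s 7 15 := by
  refine Gd_of (by norm_num) (by norm_num) ?_
  have h1 := s715 H
  rw [FA715]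
  norm_num at h1 ⊢
  exact h1

theorem Gd815 (H : Symb15 s a) : Gd s 8 15 := by
  have h := ((Gd715 H).neg H).add H (by norm_num) 1
  exact h

theorem Gd1130 (H : Symb15 s a) : Gd s 11 30 := by
  refine Gd_of (by norm_num) (by norm_num) ?_
  have h1 := s1130 H
  rw [FA1130]
  norm_num at h1 ⊢
  linarith

theorem Gd_all (H : Symb15 s a) (n : ℕ) : ∀ x M : ℤ, M.natAbs = n → M ≠ 0 → (3 : ℤ) ∣ M →
    IsCoprime x M → Gd s x M := by
  induction n using Nat.strong_induction_on with
  | _ n ih =>
    intro x M hn hM0 h3 hcop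
    -- reduction to positive denominators
    wlog hMp : 0 < M generalizing x M
    · have h1 := this (-x) (-M) (by rw [Int.natAbs_neg, hn]) (neg_ne_zero.2 hM0)
        ((dvd_neg).2 h3) hcop.neg_neg (by omega)
      have h2 := h1.neg_neg
      rwa [_root_.neg_neg, _root_.neg_neg] at h2
    have hndx : ∀ y : ℤ, IsCoprime y M → ¬ (3 : ℤ) ∣ y := by
      intro y hy h4
      have h5 := hy.isUnit_of_dvd' h4 h3
      rw [Int.isUnit_iff] at h5
      omega
    -- the general step
    have step : ∀ (y : ℤ), IsCoprime y M → 0 < y → 2 * y ≤ M → Gd s y M := by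
      intro y hy hy0 hy1
      have hy3 := hndx y hy
      by_cases h15 : M ∣ 15
      · have hle := Int.le_of_dvd (by norm_num) h15
        obtain ⟨k, rfl⟩ := h3
        have hk : k = 1 ∨ k = 5 := by
          have h6 : k ∣ 5 := by
            obtain ⟨j, hj⟩ := h15
            exact ⟨j, by linarith⟩
          have h7 := Int.le_of_dvd (by norm_num) h6
          have h8 : 0 < k := by omega
          clear h15 hle
          interval_cases k <;> omega
        rcases hk with rfl | rfl
        · have : y = 1 := by omega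
          subst this
          exact Gd13
        · have hy5 : ¬ (5 : ℤ) ∣ y := by
            intro h4
            have h5 := hy.isUnit_of_dvd' h4 ⟨3, by norm_num⟩
            rw [Int.isUnit_iff] at h5
            omega
          have : y = 1 ∨ y = 2 ∨ y = 4 ∨ y = 7 := by omega
          rcases this with rfl | rfl | rfl | rfl
          · exact Gd115 H
          · exact Gd215 H
          · exact Gd415 H
          · exact Gd715 H
      have hnd' : ∀ j : ℤ, 15 * y ≠ j * M := by
        intro j hj
        apply h15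
        exact hy.symm.dvd_of_dvd_mul_right (Dvd.intro_left j hj.symm)
      have main : ∀ (A B D : ℤ) (c : ℤ), A * D - B * (15 * c) = 1 → 0 < c →
          |15 * c * y + D * M| < M → 15 * c * y + D * M ≠ 0 → Gd s A (15 * c) → Gd s y M := by
        intro A B D c hdet hc hlt hK hBD
        have hcop' : IsCoprime (A * y + B * M) (15 * c * y + D * M) := by
          obtain ⟨u, v, huv⟩ := hy
          refine ⟨u * D - v * (15 * c), -(u * B) + v * A, ?_⟩
          linear_combination (u * y + v * M) * hdet + huv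
        refine Gd.of_coc H hc.ne' hdet hM0 h3 hy3 hK ?_ hBD
        refine ih _ ?_ _ _ rfl hK ?_ hcop'
        · rw [← hn]
          zify
          rw [abs_of_pos hMp]
          exact hlt
        · obtain ⟨k, rfl⟩ := h3
          exact ⟨5 * c * y + D * k, by ring⟩
      have c1 : 15 * y < 2 * M ∨ (M < 15 * y ∧ 15 * y < 3 * M) ∨
          (3 * M < 15 * y ∧ 15 * y < 5 * M) ∨ (5 * M < 15 * y ∧ 15 * y < 6 * M) ∨
          (6 * M < 15 * y ∧ 15 * y < 8 * M) := by
        have := hnd' 3
        have := hnd' 5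
        have := hnd' 6
        omega
      rcases c1 with c1 | c1 | c1 | c1 | c1
      · refine main (-1) 0 (-1) 1 (by norm_num) one_pos ?_ ?_ ?_
        · rw [abs_lt]
          constructor <;> omega
        · have := hnd' 1
          omega
        · exact (Gd115 H).neg H
      · refine main (-8) 1 (-2) 1 (by norm_num) one_pos ?_ ?_ ?_
        · rw [abs_lt]
          constructor <;> omega
        · have := hnd' 2
          omega
        · exact (Gd815 H).neg H
      · refine main (-4) 1 (-4) 1 (by norm_num) one_pos ?_ ?_ ?_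
        · rw [abs_lt]
          constructor <;> omega
        · have := hnd' 4
          omega
        · exact (Gd415 H).neg H
      · by_cases hK : 15 * 2 * y + -11 * M = 0
        · obtain ⟨t, rfl⟩ : ∃ t, M = 30 * t := ⟨M / 30, by omega⟩
          have hy11 : y = 11 * t := by omega
          have ht : IsUnit t := hy.isUnit_of_dvd' ⟨11, by rw [hy11]; ring⟩ ⟨30, by ring⟩
          rw [Int.isUnit_iff] at ht
          have ht1 : t = 1 := by omega
          subst ht1
          have : y = 11 := by omega
          subst this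
          exact Gd1130 H
        · refine main (-11) 4 (-11) 2 (by norm_num) two_pos ?_ hK ?_
          · rw [abs_lt]
            constructor <;> omega
          · exact (Gd1130 H).neg H
      · refine main 2 (-1) (-7) 1 (by norm_num) one_pos ?_ ?_ ?_
        · rw [abs_lt]
          constructor <;> omega
        · have := hnd' 7
          omega
        · exact Gd215 H
    -- reduce `x` modulo `M`
    obtain ⟨y, m, hxy, hy0, hyM⟩ : ∃ y m : ℤ, x = y + m * M ∧ 0 ≤ y ∧ y < M :=
      ⟨x % M, x / M, by linear_combination -(Int.emod_add_mul_ediv x M), Int.emod_nonneg _ hM0,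
        Int.emod_lt_of_pos _ hMp⟩
    have hcy : IsCoprime y M := by
      rw [hxy] at hcop
      exact (IsCoprime.add_mul_right_left_iff).1 hcop
    have hy00 : y ≠ 0 := by
      rintro rfl
      exact hndx 0 hcy (dvd_zero 3)
    rw [hxy]
    refine Gd.add H hM0 m ?_
    rcases le_or_gt (2 * y) M with h1 | h1
    · exact step y hcy (by omega) h1
    · have h2 : IsCoprime (M - y) M := by
        have h3 : (M - y) = -y + 1 * M := by ring
        rw [h3]
        exact (IsCoprime.add_mul_right_left_iff).2 hcy.neg_left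
      have h3 := step (M - y) h2 (by omega) (by omega)
      have h4 := (h3.neg H).add H hM0 1
      have e : -(M - y) + 1 * M = y := by ring
      rwa [e] at h4

/-- **SYMA** -/
theorem t_SYMA : S_SYMA := by
  intro s a H x M hM h3 hcop
  have h1 := Gd_all H M.natAbs x M rfl hM h3 hcop
  have hx : ¬ (3 : ℤ) ∣ x := by
    intro h4
    have h5 := hcop.isUnit_of_dvd' h4 h3
    rw [Int.isUnit_iff] at h5
    omega
  unfold Gd at h1
  rw [G_eq (NV_3 h3 hx)] at h1
  linarith

end Pool.Agent.N973.P15.SA
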