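import Pool.Agent.N973.P15.SymA
import Pool.Agent.N973.P15.Defs4

/-!
# The odd modular symbol of level `15` on the cusps with denominator divisible by `5`, not by `3`
-/

set_option autoImplicit false

open Finset

namespace Pool.Agent.N973.P15.SB

open Pool.Agent.N974.MF (Symb15)
open Pool.Agent.N975.Sym (ev act ev_act act_inv eqv kq kq_eq dec2 key refl kq_neg ev_neg ev10)
open Pool.Agent.N973.P15.SA

noncomputable section

open Classical in
/-- the regularized term -/
def T' (x M : ℤ) (q : ℤ × ℤ × ℤ) : ℤ :=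
  if inA q ∧ ev q x M ≠ 0 then kq q * (Int.sign (ev q x M) - Int.sign q.1) else 0

/-- the regularized counting function -/
def G' (x M : ℤ) : ℤ := ∑ᶠ q, T' x M q

open Classical in
/-- the boundary term of a form -/
def Zt (x M c d : ℤ) (q : ℤ × ℤ × ℤ) : ℤ :=
  if inA q ∧ ev q x M = 0 then kq q * (Int.sign q.1 - Int.sign (ev q d (-c))) else 0

theorem fin_S (x M : ℤ) : {q | inA q ∧ q.1 * ev q x M < 0}.Finite := by
  rcases eq_or_ne M 0 with rfl | hM
  · have : {q | inA q ∧ q.1 * ev q x 0 < 0} = ∅ := by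
      rw [Set.eq_empty_iff_forall_notMem]
      rintro q ⟨h1, h1'⟩
      have h2 := (bound h1.1 h1').2
      rw [abs_zero, mul_zero] at h2
      exact absurd (abs_nonneg _) (not_le.2 h2)
    rw [this]
    exact Set.finite_empty
  · set K : ℤ := 4 * M ^ 2 with hK
    set L : ℤ := 2 * |M| + 2 * K * |x| with hL
    set R : ℤ := L ^ 2 + 4 with hR
    refine ((Set.finite_Icc (-K) K).prod ((Set.finite_Icc (-L) L).prod
      (Set.finite_Icc (-R) R))).subset ?_
    rintro q ⟨h1, h1'⟩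
    obtain ⟨h2, h3⟩ := bound h1.1 h1'
    have hA : |q.1| ≤ K := by
      have := abs_nonneg q.1
      omega
    have hM1 : 1 ≤ |M| := Int.one_le_abs hM
    have hB : |q.2.1| ≤ L := by
      have h4 : |q.2.1 * M| ≤ |2 * q.1 * x + q.2.1 * M| + |2 * q.1 * x| := by
        have h5 : q.2.1 * M = (2 * q.1 * x + q.2.1 * M) - 2 * q.1 * x := by ring
        calc |q.2.1 * M| = |(2 * q.1 * x + q.2.1 * M) - 2 * q.1 * x| := by rw [← h5]
          _ ≤ _ := abs_sub _ _
      have h6 : |2 * q.1 * x| ≤ 2 * K * |x| := by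
        rw [abs_mul, abs_mul]
        have : |(2:ℤ)| = 2 := rfl
        rw [this]
        have := abs_nonneg x
        nlinarith
      have h7 : |q.2.1| ≤ |q.2.1 * M| := by
        rw [abs_mul]
        exact le_mul_of_one_le_right (abs_nonneg _) hM1
      rw [hL]
      linarith
    have hC : |q.2.2| ≤ R := by
      have h4 : 4 * (q.1 * q.2.2) = q.2.1 ^ 2 - 4 := by
        have := h1.1
        linarith
      have h5 : 4 * (|q.1| * |q.2.2|) ≤ q.2.1 ^ 2 + 4 := by
        rw [← abs_mul]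
        rcases abs_cases (q.1 * q.2.2) with ⟨h6, _⟩ | ⟨h6, _⟩ <;> rw [h6] <;>
          nlinarith [sq_nonneg q.2.1]
      have h6 : q.2.1 ^ 2 ≤ L ^ 2 := by
        rw [← sq_abs q.2.1]
        exact pow_le_pow_left₀ (abs_nonneg _) hB 2
      have h7 : 1 ≤ |q.1| := Int.one_le_abs (A_ne h1)
      have h8 : |q.2.2| ≤ |q.1| * |q.2.2| := le_mul_of_one_le_left (abs_nonneg _) h7
      have h9 := abs_nonneg q.2.2
      rw [hR]
      linarith
    refine ⟨?_, ?_, ?_⟩
    · exact abs_le.1 hA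
    · exact abs_le.1 hB
    · exact abs_le.1 hC

theorem T'_split (x M : ℤ) (q : ℤ × ℤ × ℤ) :
    T' x M q = (-2) * f2 x M q + (-2) * f8 x M (-q) := by
  unfold T' f2 f8
  rw [neg_neg, ev_neg]
  simp only [Prod.fst_neg]
  by_cases hq : inA q
  · have h2 := A_ne hq
    rw [cA_pos hq, cA_neg hq]
    rcases lt_trichotomy (ev q x M) 0 with h5 | h5 | h5
    · rw [if_pos ⟨hq, h5.ne⟩]
      have n2 : ¬ (inA q ∧ 0 < -q.1 ∧ -ev q x M < 0) := fun h => by linarith [h.2.2]
      rw [if_neg n2, Int.sign_eq_neg_one_of_neg h5]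
      rcases lt_or_gt_of_ne h2 with h4 | h4
      · have n1 : ¬ (inA q ∧ 0 < q.1 ∧ ev q x M < 0) := fun h => by linarith [h.2.1]
        rw [if_neg n1, Int.sign_eq_neg_one_of_neg h4]
        ring
      · rw [if_pos ⟨hq, h4, h5⟩, Int.sign_eq_one_of_pos h4]
        ring
    · have n0 : ¬ (inA q ∧ ev q x M ≠ 0) := fun h => h.2 h5
      have n1 : ¬ (inA q ∧ 0 < q.1 ∧ ev q x M < 0) := fun h => by linarith [h.2.2]
      have n2 : ¬ (inA q ∧ 0 < -q.1 ∧ -ev q x M < 0) := fun h => by linarith [h.2.2]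
      rw [if_neg n0, if_neg n1, if_neg n2]
      ring
    · rw [if_pos ⟨hq, h5.ne'⟩]
      have n1 : ¬ (inA q ∧ 0 < q.1 ∧ ev q x M < 0) := fun h => by linarith [h.2.2]
      rw [if_neg n1, Int.sign_eq_one_of_pos h5]
      rcases lt_or_gt_of_ne h2 with h4 | h4
      · rw [if_pos ⟨hq, by linarith, by linarith⟩, Int.sign_eq_neg_one_of_neg h4]
        ring
      · have n2 : ¬ (inA q ∧ 0 < -q.1 ∧ -ev q x M < 0) := fun h => by linarith [h.2.1]
        rw [if_neg n2, Int.sign_eq_one_of_pos h4]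
        ring
  · have n0 : ¬ (inA q ∧ ev q x M ≠ 0) := fun h => hq h.1
    have n1 : ¬ (inA q ∧ 0 < q.1 ∧ ev q x M < 0) := fun h => hq h.1
    have n2 : ¬ (inA q ∧ 0 < -q.1 ∧ -ev q x M < 0) := fun h => hq h.1
    rw [if_neg n0, if_neg n1, if_neg n2]
    ring

theorem fin2' (x M : ℤ) : (Function.support (f2 x M)).Finite := by
  refine (fin_S x M).subset ?_
  intro q hq
  have h1 : f2 x M q ≠ 0 := hq
  unfold f2 at h1
  have h2 : inA q ∧ 0 < q.1 ∧ ev q x M < 0 := by
    by_contra h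
    rw [if_neg h] at h1
    exact h1 rfl
  exact ⟨h2.1, mul_neg_of_pos_of_neg h2.2.1 h2.2.2⟩

theorem fin8'' (x M : ℤ) : (Function.support (fun q => f8 x M (-q))).Finite := by
  refine (fin_S x M).subset ?_
  intro q hq
  have h1 : f8 x M (-q) ≠ 0 := hq
  unfold f8 at h1
  have h2 : inA (- -q) ∧ 0 < (-q).1 ∧ ev (-q) x M < 0 := by
    by_contra h
    rw [if_neg h] at h1
    exact h1 rfl
  rw [neg_neg, ev_neg, Prod.fst_neg] at h2
  refine ⟨h2.1, ?_⟩
  have h3 : q.1 < 0 := by linarith [h2.2.1]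
  have h4 : 0 < ev q x M := by linarith [h2.2.2]
  exact mul_neg_of_neg_of_pos h3 h4

theorem fin8a (x M : ℤ) : (Function.support (f8 x M)).Finite := by
  have h := (fin8'' x M).preimage ((neg_injective (G := ℤ × ℤ × ℤ)).injOn)
  refine h.subset ?_
  intro q hq
  show f8 x M (- -q) ≠ 0
  rw [neg_neg]
  exact hq

theorem fin_T' (x M : ℤ) : (Function.support (T' x M)).Finite := by
  refine ((fin2' x M).union (fin8'' x M)).subset ?_
  intro q hq
  by_contra h
  rw [Set.mem_union, not_or, Function.mem_support, Function.mem_support, not_not, not_not] at h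
  apply hq
  rw [T'_split, h.1, h.2]
  ring

theorem G'_eq (x M : ℤ) : G' x M = -2 * FA x M := by
  classical
  have h1 : FA x M = ∑ᶠ q, (f2 x M q + f8 x M q) := by
    unfold FA
    apply finsum_congr
    intro q
    unfold f2 f8
    have hex : ¬ (inA q ∧ inA (-q)) := by
      rintro ⟨⟨_, _, _, h1⟩, ⟨_, _, _, h2⟩⟩
      rw [Prod.snd_neg, Prod.fst_neg] at h2
      omega
    have he : ev q x M = q.1 * x ^ 2 + q.2.1 * x * M + q.2.2 * M ^ 2 := rfl
    rw [← he]
    by_cases hs : 0 < q.1 ∧ ev q x M < 0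
    · by_cases h3 : inA q
      · have h4 : ¬ inA (-q) := fun h => hex ⟨h3, h⟩
        rw [if_pos ⟨(Fm_split q).2 (Or.inl h3), hs⟩, if_pos ⟨h3, hs⟩, if_neg (fun h => h4 h.1),
          add_zero]
      · by_cases h4 : inA (-q)
        · rw [if_pos ⟨(Fm_split q).2 (Or.inr h4), hs⟩, if_neg (fun h => h3 h.1), if_pos ⟨h4, hs⟩,
            zero_add]
        · have h5 : ¬ FmA q := fun h => ((Fm_split q).1 h).elim h3 h4
          rw [if_neg (fun h => h5 h.1), if_neg (fun h => h3 h.1), if_neg (fun h => h4 h.1),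
            add_zero]
    · rw [if_neg (fun h => hs h.2), if_neg (fun h => hs h.2), if_neg (fun h => hs h.2), add_zero]
  have h2 : ∑ᶠ q, f8 x M (-q) = ∑ᶠ q, f8 x M q :=
    finsum_comp_equiv (Equiv.neg (ℤ × ℤ × ℤ)) (f := f8 x M)
  have h3 : G' x M = (-2) * (∑ᶠ q, f2 x M q) + (-2) * (∑ᶠ q, f8 x M (-q)) := by
    unfold G'
    rw [finsum_congr (T'_split x M), finsum_add_distrib, mul_finsum, mul_finsum]
    · exact (fin2' x M).subset (Function.support_mul_subset_right _ _)
    · exact (fin8'' x M).subset (Function.support_mul_subset_right _ _)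
  rw [h1, h3, h2, finsum_add_distrib (fin2' x M) (fin8a x M)]
  ring

theorem act_fst (a b c d : ℤ) (q : ℤ × ℤ × ℤ) : (act a b c d q).1 = ev q a c := by
  unfold act ev
  ring

/-- the cocycle relation with the boundary term -/
theorem T'_coc {a b c d : ℤ} (h : a * d - b * c = 1) (hc : (15 : ℤ) ∣ c) (x M : ℤ)
    (q : ℤ × ℤ × ℤ) : T' (a * x + b * M) (c * x + d * M) q =
      T' x M (act a b c d q) + T a c 1 0 q - Zt x M c d (act a b c d q) := by
  unfold T' T Zt
  by_cases hq : inA q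
  · have hq' := inA_act h hc hq
    have e1 : ev q (a * x + b * M) (c * x + d * M) = ev (act a b c d q) x M := (ev_act ..).symm
    have e2 : ev (act a b c d q) d (-c) = q.1 := by
      rw [ev_act]
      have k1 : a * d + b * -c = 1 := by linarith
      have k2 : c * d + d * -c = 0 := by ring
      rw [k1, k2]
      exact ev10 q
    rw [e1, e2, act_fst, kq_act h hq, if_pos hq, ev10]
    by_cases h0 : ev (act a b c d q) x M = 0
    · rw [if_neg (fun h => h.2 h0), if_neg (fun h => h.2 h0), if_pos ⟨hq', h0⟩]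
      ring
    · rw [if_pos ⟨hq, h0⟩, if_pos ⟨hq', h0⟩, if_neg (fun h => h0 h.2)]
      ring
  · have hq' : ¬ inA (act a b c d q) := fun h1 => hq ((inA_act_iff h hc).1 h1)
    rw [if_neg (fun h => hq h.1), if_neg (fun h => hq' h.1), if_neg hq, if_neg (fun h => hq' h.1)]
    ring

theorem G'_coc {a b c d : ℤ} (h : a * d - b * c = 1) (hc : (15 : ℤ) ∣ c) {x M : ℤ}
    (hf : (Function.support (Zt x M c d)).Finite) :
    G' (a * x + b * M) (c * x + d * M) = G' x M + G a c - ∑ᶠ q, Zt x M c d q := by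
  unfold G' G
  have h1 : ∀ q, T' (a * x + b * M) (c * x + d * M) q =
      (T' x M (eqv a b c d h q) + T a c 1 0 q) - Zt x M c d (eqv a b c d h q) :=
    fun q => T'_coc h hc x M q
  have hf1 : (Function.support fun q => T' x M (eqv a b c d h q)).Finite :=
    (fin_T' x M).preimage ((eqv a b c d h).injective.injOn)
  have hf2 : (Function.support fun q => Zt x M c d (eqv a b c d h q)).Finite :=
    hf.preimage ((eqv a b c d h).injective.injOn)
  have hf3 := fin_T (NV_inf h hc)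
  have hf4 : (Function.support fun q => T' x M (eqv a b c d h q) + T a c 1 0 q).Finite :=
    (hf1.union hf3).subset (Function.support_add _ _)
  rw [finsum_congr h1, finsum_sub_distrib hf4 hf2, finsum_add_distrib hf1 hf3,
    finsum_comp_equiv (eqv a b c d h) (f := T' x M),
    finsum_comp_equiv (eqv a b c d h) (f := Zt x M c d)]

/-- the forms vanishing at `1 / 5` -/
def qi (i : ℤ) : ℤ × ℤ × ℤ := (25 * i - 10, 2 - 10 * i, i)

theorem eq_qi {q : ℤ × ℤ × ℤ} (h : inA q) (h0 : ev q 1 5 = 0) : q = qi q.2.2 := by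
  obtain ⟨A, B, C⟩ := q
  obtain ⟨h1, h2, h3, h4⟩ := h
  simp only at h1 h2 h3 h4
  unfold ev at h0
  simp only at h0
  have hA : A = -5 * B - 25 * C := by linarith
  have h5 : (B + 10 * C - 2) * (B + 10 * C + 2) = 0 := by
    rw [hA] at h1
    linear_combination h1
  have hB : B = 2 - 10 * C := by
    rcases mul_eq_zero.1 h5 with h6 | h6
    · linarith
    · omega
  unfold qi
  simp only [Prod.mk.injEq]
  exact ⟨by rw [hA, hB]; ring, hB, trivial⟩

theorem qi_inj : Function.Injective qi := by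
  intro i j h
  unfold qi at h
  simp only [Prod.mk.injEq] at h
  exact h.2.2

theorem inA_qi (i : ℤ) : inA (qi i) ↔ i % 3 ≠ 1 := by
  unfold inA qi
  simp only
  constructor
  · rintro ⟨-, -, h, -⟩
    omega
  · intro h
    exact ⟨by ring, ⟨5 * i - 2, by ring⟩, by omega, by omega⟩

theorem ev_qi (i c d : ℤ) : ev (qi i) d (-c) = (5 * d + c) * (i * (5 * d + c) - 2 * d) := by
  unfold ev qi
  simp only
  ring

theorem ev_qi0 (i : ℤ) : ev (qi i) 1 5 = 0 := by
  unfold ev qi
  simp only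
  ring

theorem kq_qi (i : ℤ) : kq (qi i) = if i % 2 = 0 then -1 else 1 := by
  unfold kq qi
  simp only
  by_cases h : i % 2 = 0
  · rw [if_pos h, if_pos ⟨by omega, by omega⟩]
  · rw [if_neg h, if_neg (fun h1 => h (by omega))]

/-- the value of the boundary term at `qi i` -/
theorem Zt_qi {M j : ℤ} (hM : 0 < M) (i : ℤ) :
    Zt 1 5 (6 * M - 15 * j) (3 * j - M) (qi i) = if i % 3 ≠ 1 then
      (if i % 2 = 0 then -1 else 1) * (Int.sign (25 * i - 10) - Int.sign ((i + 2) * M - 6 * j))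
      else 0 := by
  unfold Zt
  have e : ev (qi i) (3 * j - M) (-(6 * M - 15 * j)) = M * ((i + 2) * M - 6 * j) := by
    rw [ev_qi]
    ring
  have e1 : (qi i).1 = 25 * i - 10 := rfl
  by_cases h : i % 3 = 1
  · rw [if_neg (not_not.2 h), if_neg (fun h1 => (inA_qi i).1 h1.1 h)]
  · rw [if_pos h, if_pos ⟨(inA_qi i).2 h, ev_qi0 i⟩, kq_qi, e, e1, Int.sign_mul,
      Int.sign_eq_one_of_pos hM, one_mul]

theorem Zt_supp {M j : ℤ} (hM : 0 < M) (hj : 0 ≤ j) (hjM : j < M) :
    Function.support (Zt 1 5 (6 * M - 15 * j) (3 * j - M)) ⊆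
      (({qi (-1), qi 0, qi 2, qi 3} : Finset (ℤ × ℤ × ℤ)) : Set (ℤ × ℤ × ℤ)) := by
  intro q hq
  have h1 : inA q ∧ ev q 1 5 = 0 := by
    by_contra h
    apply hq
    unfold Zt
    rw [if_neg h]
  have h2 := eq_qi h1.1 h1.2
  generalize q.2.2 = i at h2
  subst h2
  rw [Function.mem_support, Zt_qi hM] at hq
  have h3 : i % 3 ≠ 1 := by
    intro h
    rw [if_neg (not_not.2 h)] at hq
    exact hq rfl
  rw [if_pos h3] at hq
  have h4 : i = -1 ∨ i = 0 ∨ i = 2 ∨ i = 3 := by
    by_contra h5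
    apply hq
    rcases le_or_gt i 0 with h6 | h6
    · have h7 : i ≤ -3 := by omega
      have h8 : (i + 2) * M - 6 * j < 0 := by nlinarith
      rw [Int.sign_eq_neg_one_of_neg h8, Int.sign_eq_neg_one_of_neg (by omega)]
      ring
    · have h7 : 4 ≤ i := by omega
      have h8 : 0 < (i + 2) * M - 6 * j := by nlinarith
      rw [Int.sign_eq_one_of_pos h8, Int.sign_eq_one_of_pos (by omega)]
      ring
  rcases h4 with rfl | rfl | rfl | rfl <;> simp

theorem Zt_sum {M j : ℤ} (hM : 0 < M) (h3 : ¬ (3 : ℤ) ∣ M) (hj : 0 ≤ j) (hjM : j < M) :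
    ∑ᶠ q, Zt 1 5 (6 * M - 15 * j) (3 * j - M) q = 2 * bt j M := by
  have h1 : qi (-1) ∉ ({qi 0, qi 2, qi 3} : Finset (ℤ × ℤ × ℤ)) := by decide
  have h2 : qi 0 ∉ ({qi 2, qi 3} : Finset (ℤ × ℤ × ℤ)) := by decide
  have h4 : qi 2 ∉ ({qi 3} : Finset (ℤ × ℤ × ℤ)) := by decide
  rw [finsum_eq_sum_of_support_subset _ (Zt_supp hM hj hjM), Finset.sum_insert h1,
    Finset.sum_insert h2, Finset.sum_insert h4, Finset.sum_singleton, Zt_qi hM, Zt_qi hM, Zt_qi hM,
    Zt_qi hM]
  norm_num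
  unfold bt
  have e1 : M - 6 * j ≠ 0 := by omega
  have e2 : 2 * M - 6 * j ≠ 0 := by omega
  have e3 : 4 * M - 6 * j ≠ 0 := by omega
  have e4 : 5 * M - 6 * j ≠ 0 := by omega
  have key : ∀ z : ℤ, z ≠ 0 → Int.sign z = if 0 < z then 1 else -1 := by
    intro z hz
    rcases lt_or_gt_of_ne hz with h | h
    · rw [Int.sign_eq_neg_one_of_neg h, if_neg (by omega)]
    · rw [Int.sign_eq_one_of_pos h, if_pos h]
  rw [key _ e1, key _ e2, key _ e3, key _ e4, show Int.sign 35 = 1 from rfl,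
    show Int.sign 10 = 1 from rfl, show Int.sign 40 = 1 from rfl, show Int.sign 65 = 1 from rfl]
  split_ifs <;> omega

theorem FA15 : FA 1 5 = -1 := by
  have h := FA_val 5 (by norm_num) 1
  rw [show ((5 : ℕ) : ℤ) = 5 from rfl] at h
  rw [h]
  decide +kernel

variable {s : ℚ → ℤ} {a : ℕ → ℤ}

theorem s15 (H : Symb15 s a) : s (1 / 5) = s (1 / 3) := by
  have h1 := H.w15 (1 / 3) (by norm_num)
  have h2 := H.neg (1 / 5)
  norm_num at h1 h2 ⊢
  linarith

theorem s_int (H : Symb15 s a) (m : ℤ) : s (m : ℚ) = 0 := by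
  have h := per_int H 0 m
  rw [zero_add] at h
  rw [h]
  exact H.s0

theorem Gd_inf (H : Symb15 s a) {A B C D : ℤ} (hdet : A * D - B * (15 * C) = 1) :
    2 * s ((B : ℚ) / D) = s (1 / 3) * G A (15 * C) := by
  rcases eq_or_ne C 0 with rfl | hC
  · have hAD : A * D = 1 := by linarith
    have hA : A ^ 2 = 1 := by
      rcases Int.eq_one_or_neg_one_of_mul_eq_one hAD with h | h <;> rw [h] <;> norm_num
    have h1 : G A (15 * 0) = 0 := by
      unfold G
      apply finsum_eq_zero_of_forall_eq_zero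
      intro q
      unfold T
      have e : ev q A (15 * 0) = ev q 1 0 := by
        unfold ev
        rw [hA]
        ring
      rw [e, sub_self, mul_zero]
      simp
    have h2 : s ((B : ℚ) / D) = 0 := by
      rcases Int.eq_one_or_neg_one_of_mul_eq_one' hAD with ⟨-, h⟩ | ⟨-, h⟩
      · rw [h]
        have := s_int H B
        simpa using this
      · rw [h]
        have := s_int H (-B)
        have e : (B : ℚ) / ((-1 : ℤ) : ℚ) = ((-B : ℤ) : ℚ) := by push_cast; ring
        rw [e, this]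
    rw [h1, h2]
    ring
  · have h1 := H.aff_inf hdet hC
    have hcop : IsCoprime A (15 * C) := ⟨D, -B, by linear_combination hdet⟩
    have h2 := Gd_all H (15 * C).natAbs A (15 * C) rfl (by omega) (by omega) hcop
    unfold Gd at h2
    push_cast at h2
    rw [h1] at h2
    exact h2

/-- **SYMB** -/
theorem t_SYMB : S_SYMB := by
  intro s a H x M j hM h5 h3 hcop hj hjM hdv
  obtain ⟨M0, rfl⟩ := h5
  obtain ⟨k, hk⟩ := hdv
  obtain ⟨C, hC⟩ : ∃ C, C = 2 * M0 - j := ⟨_, rfl⟩
  have hdet : (6 * x - 5 * k) * (3 * j - 5 * M0) - (k - x) * (15 * C) = 1 := by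
    rw [hC]
    linear_combination hk
  have hc15 : 15 * C = 6 * (5 * M0) - 15 * j := by rw [hC]; ring
  have hf : (Function.support (Zt 1 5 (15 * C) (3 * j - 5 * M0))).Finite := by
    rw [hc15]
    exact (Finset.finite_toSet _).subset (Zt_supp hM hj hjM)
  have h1 := G'_coc hdet (Dvd.intro C rfl) hf
  rw [hc15, Zt_sum hM h3 hj hjM] at h1
  have e1 : (6 * x - 5 * k) * 1 + (k - x) * 5 = x := by ring
  have e2 : (6 * (5 * M0) - 15 * j) * 1 + (3 * j - 5 * M0) * 5 = 5 * M0 := by ring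
  rw [e1, e2, G'_eq, G'_eq, FA15, ← hc15] at h1
  have h2 := H.aff' hdet (x := 1) (c := 5) (by norm_num) (by rw [hC]; omega)
  have e3 : 15 * C * 1 + (3 * j - 5 * M0) * 5 = 5 * M0 := by rw [hC]; ring
  rw [e1, e3] at h2
  have h3' := Gd_inf H hdet
  have h4 := s15 H
  norm_num at h2 h4
  push_cast at h2 h3' ⊢
  rw [h4] at h2
  rw [h2]
  have h6 : 2 * (s (1 / 3) + s (((k : ℚ) - x) / (3 * j - 5 * M0))) =
      2 * (s (1 / 3) * (-FA x (5 * M0) + bt j (5 * M0))) := by
    linear_combination h3' - s (1 / 3) * h1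
  linarith

end

end Pool.Agent.N973.P15.SB
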