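import Pool.Agent.N973.P15.BILE
import Pool.Agent.N973.P15.C1AA

/-!
# P15: the bilinear identities for the norms divisible by `3`
-/

set_option autoImplicit false

namespace Pool.Agent.N973.P15

open Finset
open Pool.Agent.N969.P15
open Pool.Agent.Z700 (hh fac)

theorem fibs {n n2 B : ℤ} (hB : n * n2 < B ^ 2) (hB0 : 0 < B) (P : ℤ → Prop) [DecidablePred P] :
    ∑ b ∈ (Ioo (-B) B).filter P, (cp n b n2 : ℤ) =
      (((vec n ×ˢ vec n2).filter fun q => P (ip q.1 q.2)).card : ℤ) := by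
  rw [Finset.card_eq_sum_card_fiberwise (f := fun q : V3 × V3 => ip q.1 q.2)
    (t := (Ioo (-B) B).filter P)]
  · push_cast
    refine Finset.sum_congr rfl fun b hb => ?_
    congr 1
    unfold cp
    rw [Finset.filter_filter]
    congr 1
    refine Finset.filter_congr fun q _ => ?_
    constructor
    · intro h
      refine ⟨?_, h⟩
      rw [h]
      exact (Finset.mem_filter.1 hb).2
    · exact fun h => h.2
  · intro q hq
    rw [Finset.mem_coe, Finset.mem_filter, Finset.mem_product, mem_vec, mem_vec] at hq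
    obtain ⟨⟨h1, h2⟩, h3⟩ := hq
    have h4 := cauchy q.1 q.2
    rw [h1, h2] at h4
    rw [Finset.mem_coe, Finset.mem_filter, Finset.mem_Ioo]
    have h5 : ip q.1 q.2 ^ 2 < B ^ 2 := lt_of_le_of_lt h4 hB
    have h6 := abs_lt_of_sq_lt_sq h5 hB0.le
    rw [abs_lt] at h6
    exact ⟨h6, h3⟩

/-- the pairs with inner product prime to `3` -/
theorem card_n3 (hR : S_REL33) {n1 n2 : ℕ} (h1 : 3 ∣ n1) (h1' : ¬ 9 ∣ n1) (h2 : 3 ∣ n2)
    (h2' : ¬ 9 ∣ n2) :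
    12 * (((vec n1 ×ˢ vec n2).filter fun q => ¬ (3 : ℤ) ∣ ip q.1 q.2).card : ℤ) =
      9 * rr n1 * rr n2 - cc n1 * cc n2 := by
  have h := hR n1 n2 h1 h1' h2 h2'
  have h3 := Finset.card_filter_add_card_filter_not (s := vec n1 ×ˢ vec n2)
    (fun q : V3 × V3 => (3 : ℤ) ∣ ip q.1 q.2)
  rw [Finset.card_product] at h3
  have h4 : (cp0 n1 n2 : ℤ) + (((vec n1 ×ˢ vec n2).filter fun q => ¬ (3 : ℤ) ∣ ip q.1 q.2).card : ℤ) =
      rr n1 * rr n2 := by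
    unfold rr cp0
    exact_mod_cast h3
  have e : 3 * rr n1 * rr n2 = 3 * (rr n1 * rr n2) := by ring
  have e' : 9 * rr n1 * rr n2 = 9 * (rr n1 * rr n2) := by ring
  rw [e] at h
  rw [e', ← h4]
  rw [← h4] at h
  linarith

theorem sq5 {n1 n2 : ℕ} {N : ℕ} (hN : n1 * n2 = N ^ 2) {v w : V3} (hv : v ∈ vec n1)
    (hw : w ∈ vec n2) : (5 : ℤ) ∣ ip v w ^ 2 - (N : ℤ) ^ 2 := by
  have h1 := ip_uu v w
  have h2 := uu_sq hv
  have h3 := uu_sq hw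
  have e : (N : ℤ) ^ 2 = n1 * n2 := by exact_mod_cast hN.symm
  rw [e]
  obtain ⟨a, ha⟩ := h1
  obtain ⟨b, hb⟩ := h2
  obtain ⟨c, hc⟩ := h3
  have ha' : ip v w = 2 * (uu v * uu w) + 5 * a := by linarith
  have hb' : (n1 : ℤ) = 2 * (uu v * uu v) + 5 * b := by linarith
  have hc' : (n2 : ℤ) = 2 * (uu w * uu w) + 5 * c := by linarith
  rw [ha', hb', hc']
  exact ⟨4 * (uu v * uu w) * a + 5 * a ^ 2 - 2 * (uu v * uu v) * c - 2 * (uu w * uu w) * b -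
    5 * b * c, by ring⟩

theorem neg_vec {n : ℤ} {v : V3} (h : v ∈ vec n) : -v ∈ vec n := by
  rw [mem_vec] at h ⊢
  rw [ip_neg, h]

theorem ip_neg_right (v w : V3) : ip v (-w) = -ip v w := by
  simp only [ip, Pi.neg_apply]
  ring

/-- half of the pairs, `5` not dividing the norms -/
theorem card_half {n1 n2 N : ℕ} (hN : n1 * n2 = N ^ 2) (h5 : ¬ 5 ∣ N) :
    (((vec n1 ×ˢ vec n2).filter fun q => ¬ (3 : ℤ) ∣ ip q.1 q.2).card : ℤ) =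
      2 * (((vec n1 ×ˢ vec n2).filter fun q => ip q.1 q.2 % 5 = (N : ℤ) % 5 ∧
        ¬ (3 : ℤ) ∣ ip q.1 q.2).card : ℤ) := by
  have h1 : ((vec n1 ×ˢ vec n2).filter fun q => ip q.1 q.2 % 5 = (N : ℤ) % 5 ∧
      ¬ (3 : ℤ) ∣ ip q.1 q.2).card = ((vec n1 ×ˢ vec n2).filter fun q =>
        ip q.1 q.2 % 5 = (-(N : ℤ)) % 5 ∧ ¬ (3 : ℤ) ∣ ip q.1 q.2).card := by
    refine Finset.card_nbij' (fun q => (q.1, -q.2)) (fun q => (q.1, -q.2)) ?_ ?_ ?_ ?_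
    · rintro ⟨v, w⟩ h
      rw [Finset.mem_coe, Finset.mem_filter, Finset.mem_product] at h ⊢
      simp only at h ⊢
      rw [ip_neg_right]
      exact ⟨⟨h.1.1, neg_vec h.1.2⟩, by omega, by omega⟩
    · rintro ⟨v, w⟩ h
      rw [Finset.mem_coe, Finset.mem_filter, Finset.mem_product] at h ⊢
      simp only at h ⊢
      rw [ip_neg_right]
      exact ⟨⟨h.1.1, neg_vec h.1.2⟩, by omega, by omega⟩
    · rintro ⟨v, w⟩ _
      simp
    · rintro ⟨v, w⟩ _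
      simp
  have h2 : ((vec n1 ×ˢ vec n2).filter fun q => ¬ (3 : ℤ) ∣ ip q.1 q.2) =
      ((vec n1 ×ˢ vec n2).filter fun q => ip q.1 q.2 % 5 = (N : ℤ) % 5 ∧ ¬ (3 : ℤ) ∣ ip q.1 q.2) ∪
      ((vec n1 ×ˢ vec n2).filter fun q => ip q.1 q.2 % 5 = (-(N : ℤ)) % 5 ∧
        ¬ (3 : ℤ) ∣ ip q.1 q.2) := by
    ext ⟨v, w⟩
    rw [Finset.mem_union, Finset.mem_filter, Finset.mem_filter, Finset.mem_filter,
      Finset.mem_product]
    simp only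
    constructor
    · rintro ⟨⟨hv, hw⟩, h⟩
      have h3 := sq5 hN hv hw
      have e : ip v w ^ 2 - (N : ℤ) ^ 2 = (ip v w - N) * (ip v w + N) := by ring
      rw [e] at h3
      rcases Int.Prime.dvd_mul' (p := 5) (by norm_num) h3 with h4 | h4
      · left
        exact ⟨⟨hv, hw⟩, by push_cast at h4; omega, h⟩
      · right
        exact ⟨⟨hv, hw⟩, by push_cast at h4; omega, h⟩
    · rintro (⟨h1, h2, h3⟩ | ⟨h1, h2, h3⟩)
      · exact ⟨h1, h3⟩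
      · exact ⟨h1, h3⟩
  rw [h2, Finset.card_union_of_disjoint, h1]
  · push_cast
    ring
  · rw [Finset.disjoint_filter]
    rintro ⟨v, w⟩ _ h3 h4
    simp only at h3 h4
    omega

/-- the sum over the inner products and the sum over `T` -/
theorem sum_T {N : ℕ} (h3 : 3 ∣ N) (g : ℤ → ℤ)
    (hg : ∀ b : ℤ, b % 5 = (N : ℤ) % 5 → ¬ (3 : ℤ) ∣ b → -(N : ℤ) < b → b < N →
      ¬ (2 : ℤ) ∣ N - b → g b = 0) :
    ∑ b ∈ (Ioo (-((N : ℤ) + 1)) ((N : ℤ) + 1)).filter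
      (fun b : ℤ => b % 5 = (N : ℤ) % 5 ∧ ¬ (3 : ℤ) ∣ b), g b =
    ∑ T ∈ (range N).filter (fun T => 5 ∣ T ∧ ¬ 3 ∣ T), g ((N : ℤ) - 2 * T) := by
  rw [← Finset.sum_filter_add_sum_filter_not _ (fun b : ℤ => (2 : ℤ) ∣ N - b)]
  have h2 : ∑ b ∈ ((Ioo (-((N : ℤ) + 1)) ((N : ℤ) + 1)).filter
      (fun b : ℤ => b % 5 = (N : ℤ) % 5 ∧ ¬ (3 : ℤ) ∣ b)).filter
      (fun b : ℤ => ¬ (2 : ℤ) ∣ N - b), g b = 0 := by
    refine Finset.sum_eq_zero fun b hb => ?_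
    obtain ⟨h6, h7⟩ := Finset.mem_filter.1 hb
    obtain ⟨h8, h11, h12⟩ := Finset.mem_filter.1 h6
    obtain ⟨h9, h10⟩ := Finset.mem_Ioo.1 h8
    exact hg b h11 h12 (by omega) (by omega) h7
  rw [h2, add_zero]
  refine Finset.sum_bij' (fun b _ => (((N : ℤ) - b) / 2).toNat) (fun T _ => (N : ℤ) - 2 * T) ?_ ?_ ?_ ?_ ?_
  · intro b hb
    obtain ⟨h6, h7⟩ := Finset.mem_filter.1 hb
    obtain ⟨h8, h11, h12⟩ := Finset.mem_filter.1 h6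
    obtain ⟨h9, h10⟩ := Finset.mem_Ioo.1 h8
    rw [Finset.mem_filter, Finset.mem_range]
    have hbN : b ≠ -N := by
      rintro rfl
      omega
    obtain ⟨c, hc⟩ := h7
    have h14 : ((N : ℤ) - b) / 2 = c := by omega
    rw [h14]
    refine ⟨by omega, ?_, ?_⟩
    · omega
    · omega
  · intro T hT
    rw [Finset.mem_filter, Finset.mem_range] at hT
    obtain ⟨h6, h7, h8⟩ := hT
    rw [Finset.mem_filter, Finset.mem_filter, Finset.mem_Ioo]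
    refine ⟨⟨⟨by omega, by omega⟩, by omega, by omega⟩, by omega⟩
  · intro b hb
    obtain ⟨h6, h7⟩ := Finset.mem_filter.1 hb
    obtain ⟨h9, h10⟩ := Finset.mem_Ioo.1 (Finset.mem_filter.1 h6).1
    omega
  · intro T hT
    omega
  · intro b hb
    obtain ⟨h6, h7⟩ := Finset.mem_filter.1 hb
    obtain ⟨h8, h11, h12⟩ := Finset.mem_filter.1 h6
    obtain ⟨h9, h10⟩ := Finset.mem_Ioo.1 h8
    congr 1
    omega

/-- the bilinear identities, `3 ∣ n` -/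
theorem BIL_pre {n n2 N : ℕ} (κ : ℤ) (L : ℤ → ℕ → ℤ)
    (hC : ∀ (b : ℤ) (D : ℕ), ¬ (3 : ℤ) ∣ b → 0 < D → (D : ℤ) = n * n2 - b ^ 2 →
      (cp n b n2 : ℤ) = κ * L b D)
    (hz : ∀ (b : ℤ) (D : ℕ), ¬ (2 : ℤ) ∣ N - b → 0 < D → (D : ℤ) = n * n2 - b ^ 2 → L b D = 0)
    (hN : n * n2 = N ^ 2) (hN3 : 3 ∣ N) :
    κ * ∑ T ∈ (range N).filter (fun T => 5 ∣ T ∧ ¬ 3 ∣ T),
      L ((N : ℤ) - 2 * T) (4 * (N - T) * T) =
      (((vec n ×ˢ vec n2).filter fun q => ip q.1 q.2 % 5 = (N : ℤ) % 5 ∧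
        ¬ (3 : ℤ) ∣ ip q.1 q.2).card : ℤ) := by
  have hNN : (n : ℤ) * n2 = (N : ℤ) ^ 2 := by exact_mod_cast hN
  have h1 := fibs (n := (n : ℤ)) (n2 := (n2 : ℤ)) (B := (N : ℤ) + 1) (by
      rw [hNN]
      have : (0 : ℤ) ≤ N := Int.natCast_nonneg N
      nlinarith) (by omega) (fun b => b % 5 = (N : ℤ) % 5 ∧ ¬ (3 : ℤ) ∣ b)
  rw [← h1, sum_T hN3, Finset.mul_sum]
  · refine Finset.sum_congr rfl fun T hT => ?_
    rw [Finset.mem_filter, Finset.mem_range] at hT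
    obtain ⟨h6, h7, h8⟩ := hT
    have hT0 : 0 < T := by
      rcases Nat.eq_zero_or_pos T with rfl | h
      · omega
      · exact h
    have hD : 0 < 4 * (N - T) * T := Nat.mul_pos (by omega) hT0
    symm
    refine hC _ _ (by omega) hD ?_
    rw [hNN]
    push_cast [Nat.cast_sub h6.le]
    ring
  · intro b h5 h3 hb1 hb2 h2
    have e : (N : ℤ) ^ 2 - b ^ 2 = (N - b) * (N + b) := by ring
    have hpos : 0 < (N : ℤ) ^ 2 - b ^ 2 := by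
      rw [e]
      exact mul_pos (by omega) (by omega)
    have hD : (((N : ℤ) ^ 2 - b ^ 2).toNat : ℤ) = n * n2 - b ^ 2 := by
      rw [Int.toNat_of_nonneg hpos.le, hNN]
    rw [hC b _ h3 (by omega) hD, hz b _ h2 (by omega) hD, mul_zero]

/-- **the bilinear identities**, `3 ∣ n`, `5` not dividing `n` -/
theorem BIL_35 (hR : S_REL33) {n n2 N : ℕ} (κ : ℤ) (L : ℤ → ℕ → ℤ)
    (hC : ∀ (b : ℤ) (D : ℕ), ¬ (3 : ℤ) ∣ b → 0 < D → (D : ℤ) = n * n2 - b ^ 2 →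
      (cp n b n2 : ℤ) = κ * L b D)
    (hz : ∀ (b : ℤ) (D : ℕ), ¬ (2 : ℤ) ∣ N - b → 0 < D → (D : ℤ) = n * n2 - b ^ 2 → L b D = 0)
    (hN : n * n2 = N ^ 2) (hN3 : 3 ∣ N) (h5 : ¬ 5 ∣ N) (h1 : 3 ∣ n) (h1' : ¬ 9 ∣ n) (h2 : 3 ∣ n2)
    (h2' : ¬ 9 ∣ n2) :
    24 * (κ * ∑ T ∈ (range N).filter (fun T => 5 ∣ T ∧ ¬ 3 ∣ T),
      L ((N : ℤ) - 2 * T) (4 * (N - T) * T)) = 9 * rr n * rr n2 - cc n * cc n2 := by
  have e1 := card_half hN h5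
  have e2 := card_n3 hR h1 h1' h2 h2'
  rw [BIL_pre κ L hC hz hN hN3]
  linarith

/-- **the bilinear identities**, `15 ∣ n` -/
theorem BIL_3 (hR : S_REL33) {n n2 N : ℕ} (κ : ℤ) (L : ℤ → ℕ → ℤ)
    (hC : ∀ (b : ℤ) (D : ℕ), ¬ (3 : ℤ) ∣ b → 0 < D → (D : ℤ) = n * n2 - b ^ 2 →
      (cp n b n2 : ℤ) = κ * L b D)
    (hz : ∀ (b : ℤ) (D : ℕ), ¬ (2 : ℤ) ∣ N - b → 0 < D → (D : ℤ) = n * n2 - b ^ 2 → L b D = 0)
    (hN : n * n2 = N ^ 2) (hN3 : 3 ∣ N) (h5 : 5 ∣ N) (h1 : 3 ∣ n) (h1' : ¬ 9 ∣ n) (h2 : 3 ∣ n2)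
    (h2' : ¬ 9 ∣ n2) :
    12 * (κ * ∑ T ∈ (range N).filter (fun T => 5 ∣ T ∧ ¬ 3 ∣ T),
      L ((N : ℤ) - 2 * T) (4 * (N - T) * T)) = 9 * rr n * rr n2 - cc n * cc n2 := by
  have e2 := card_n3 hR h1 h1' h2 h2'
  have e3 : ((vec n ×ˢ vec n2).filter fun q => ip q.1 q.2 % 5 = (N : ℤ) % 5 ∧
        ¬ (3 : ℤ) ∣ ip q.1 q.2) = ((vec n ×ˢ vec n2).filter fun q => ¬ (3 : ℤ) ∣ ip q.1 q.2) := by
    ext ⟨v, w⟩
    rw [Finset.mem_filter, Finset.mem_filter, Finset.mem_product]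
    simp only
    constructor
    · exact fun h => ⟨h.1, h.2.2⟩
    · rintro ⟨⟨hv, hw⟩, h⟩
      have h3 := sq5 hN hv hw
      have h4 : (5 : ℤ) ∣ (N : ℤ) := by exact_mod_cast h5
      have h6 : (5 : ℤ) ∣ ip v w ^ 2 := by
        have := dvd_add h3 (Dvd.dvd.mul_left h4 (N : ℤ))
        have e : ip v w ^ 2 - (N : ℤ) ^ 2 + (N : ℤ) * N = ip v w ^ 2 := by ring
        rwa [e] at this
      have h7 : (5 : ℤ) ∣ ip v w := Int.Prime.dvd_pow' (by norm_num) h6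
      exact ⟨⟨hv, hw⟩, by omega, h⟩
  rw [BIL_pre κ L hC hz hN hN3, e3]
  linarith

end Pool.Agent.N973.P15
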